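import Pool.Agent.Helper54.EC1.Pert

/-! Approximation of the solutions of the equations by squarefree compatible tuples. -/

set_option autoImplicit false

namespace Pool.Agent.Helper54.EC1

open Filter Topology Polynomial

variable {d : ℕ}

theorem exists_ratio (a b : Fin d → ℂ) (h : ∀ k l, a k * b l = a l * b k) :
    ∃ (ρ σ : ℂ) (w : Fin d → ℂ), (ρ ≠ 0 ∨ σ ≠ 0) ∧ (∀ k, a k = ρ * w k) ∧ ∀ k, b k = σ * w k := by
  by_cases h0 : ∀ k, a k = 0 ∧ b k = 0
  · exact ⟨1, 1, 0, Or.inl one_ne_zero, fun k => by simp [(h0 k).1], fun k => by simp [(h0 k).2]⟩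
  · push Not at h0
    obtain ⟨k0, hk0⟩ := h0
    by_cases ha : a k0 = 0
    · have hb := hk0 ha
      refine ⟨a k0, b k0, fun k => b k / b k0, Or.inr hb, fun k => ?_, fun k => ?_⟩
      · rw [ha, zero_mul]
        have := h k k0
        rw [ha, zero_mul] at this
        exact (mul_eq_zero.mp this).resolve_right hb
      · field_simp
    · refine ⟨a k0, b k0, fun k => a k / a k0, Or.inl ha, fun k => ?_, fun k => ?_⟩
      · field_simp
      · have := h k k0
        field_simp
        linear_combination -this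

theorem exists_relation (w ν : Fin d → ℂ) (hd : 1 ≤ d)
    (h : ∑ k, ν k * ∏ l ∈ Finset.univ.erase k, w l = 0) :
    ∃ c : Fin d → ℂ, c ≠ 0 ∧ (∀ k l, c k * w k = c l * w l) ∧ ∑ k, c k * ν k = 0 := by
  classical
  by_cases h0 : ∃ k, ∏ l ∈ Finset.univ.erase k, w l ≠ 0
  · obtain ⟨k0, hk0⟩ := h0
    refine ⟨fun k => ∏ l ∈ Finset.univ.erase k, w l, fun h1 => hk0 (congrFun h1 k0), ?_, ?_⟩
    · intro k l
      simp only
      rw [mul_comm, Finset.mul_prod_erase _ _ (Finset.mem_univ k), mul_comm,
        Finset.mul_prod_erase _ _ (Finset.mem_univ l)]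
    · rw [← h]
      exact Finset.sum_congr rfl fun k _ => mul_comm _ _
  · push Not at h0
    -- two zeros
    let k0 : Fin d := ⟨0, by omega⟩
    obtain ⟨s, hs1, hs2⟩ := Finset.prod_eq_zero_iff.mp (h0 k0)
    obtain ⟨t, ht1, ht2⟩ := Finset.prod_eq_zero_iff.mp (h0 s)
    have hts : t ≠ s := Finset.ne_of_mem_erase ht1
    by_cases hν : ν s = 0 ∧ ν t = 0
    · refine ⟨Pi.single s 1, fun h1 => ?_, ?_, ?_⟩
      · have := congrFun h1 s
        rw [Pi.single_eq_same] at this
        exact one_ne_zero this
      · have : ∀ k, (Pi.single s 1 : Fin d → ℂ) k * w k = 0 := by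
          intro k
          by_cases hk : k = s
          · rw [hk, hs2, mul_zero]
          · rw [Pi.single_eq_of_ne hk, zero_mul]
        intro k l
        rw [this, this]
      · rw [Finset.sum_eq_single s]
        · rw [hν.1, mul_zero]
        · intro b _ hb
          rw [Pi.single_eq_of_ne hb, zero_mul]
        · intro h1; exact absurd (Finset.mem_univ _) h1
    · refine ⟨fun k => if k = s then ν t else if k = t then -ν s else 0, fun h1 => hν ?_, ?_, ?_⟩
      · have e1 := congrFun h1 s
        have e2 := congrFun h1 t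
        simp only [if_true, Pi.zero_apply, hts, if_false] at e1 e2
        exact ⟨neg_eq_zero.mp e2, e1⟩
      · have : ∀ k, (if k = s then ν t else if k = t then -ν s else 0) * w k = 0 := by
          intro k
          by_cases hk : k = s
          · rw [hk, hs2, mul_zero]
          · by_cases hk2 : k = t
            · rw [hk2, ht2, mul_zero]
            · rw [if_neg hk, if_neg hk2, zero_mul]
        intro k l
        rw [this, this]
      · rw [← Finset.add_sum_erase _ _ (Finset.mem_univ s),
          ← Finset.add_sum_erase _ _ (Finset.mem_erase.mpr ⟨hts, Finset.mem_univ t⟩)]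
        rw [Finset.sum_eq_zero]
        · simp only [if_true, hts, if_false]
          ring
        · intro k hk
          have hk1 : k ≠ t := Finset.ne_of_mem_erase hk
          have hk2 : k ≠ s := Finset.ne_of_mem_erase (Finset.mem_of_mem_erase hk)
          simp only [hk2, hk1, if_false, zero_mul]

theorem exists_near (ρ : ℂ) (F : Finset ℂ) {δ : ℝ} (hδ : 0 < δ) : ∃ z, z ∉ F ∧ ‖z - ρ‖ < δ := by
  have h : (Metric.ball ρ δ).Infinite := infinite_of_mem_nhds ρ (Metric.ball_mem_nhds ρ hδ)
  obtain ⟨z, hz, hzF⟩ := h.exists_notMem_finset F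
  exact ⟨z, hzF, by rwa [Metric.mem_ball, dist_eq_norm] at hz⟩

/-- The approximation. -/
theorem approx (hd : 3 ≤ d) (P : Fin d → ℂ[X]) (hdeg : ∀ k, (P k).natDegree ≤ d)
    (hAB : ∀ k l, (P k).coeff 0 * (P l).coeff d = (P l).coeff 0 * (P k).coeff d)
    (hE : Even d → ∑ k, (P k).coeff (d / 2) * ∏ l ∈ Finset.univ.erase k, (P l).coeff 0 = 0 ∧
      ∑ k, (P k).coeff (d / 2) * ∏ l ∈ Finset.univ.erase k, (P l).coeff d = 0) :
    ∃ (Q : ℕ → Fin d → ℂ[X]) (u : ℕ → Fin d → ℂ) (ρ σ : ℕ → ℂ), (∀ n k, u n k ≠ 0) ∧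
      (∀ n k, (Q n k).natDegree = d) ∧ (∀ n k, (Q n k).coeff 0 = ρ n * u n k) ∧
      (∀ n k, (Q n k).coeff d = σ n * u n k) ∧
      (Even d → ∀ n, ∑ k, (u n k)⁻¹ * (Q n k).coeff (d / 2) = 0) ∧
      (∀ n k, (Q n k).roots.Nodup) ∧
      ∀ k j, Tendsto (fun n => (Q n k).coeff j) atTop (𝓝 ((P k).coeff j)) := by
  classical
  obtain ⟨ρ0, σ0, w, hρσ, ha, hb⟩ := exists_ratio (fun k => (P k).coeff 0)
    (fun k => (P k).coeff d) hAB
  set κ : ℂ := if Even d then 1 else 0 with hκ
  set ν : Fin d → ℂ := fun k => κ * (P k).coeff (d / 2) with hν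
  have hprod : ∀ (k : Fin d) (x : ℂ), ∏ l ∈ Finset.univ.erase k, (x * w l) =
      x ^ (d - 1) * ∏ l ∈ Finset.univ.erase k, w l := by
    intro k x
    rw [Finset.prod_mul_distrib, Finset.prod_const, Finset.card_erase_of_mem (Finset.mem_univ k),
      Finset.card_univ, Fintype.card_fin]
  have hrel : ∑ k, ν k * ∏ l ∈ Finset.univ.erase k, w l = 0 := by
    by_cases hev : Even d
    · obtain ⟨h1, h2⟩ := hE hev
      have hκ1 : κ = 1 := if_pos hev
      simp only [hν, hκ1, one_mul]
      have key : ∀ x : ℂ, ∑ k, (P k).coeff (d / 2) * ∏ l ∈ Finset.univ.erase k, (x * w l) =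
          x ^ (d - 1) * ∑ k, (P k).coeff (d / 2) * ∏ l ∈ Finset.univ.erase k, w l := by
        intro x
        rw [Finset.mul_sum]
        refine Finset.sum_congr rfl fun k _ => ?_
        rw [hprod]; ring
      rcases hρσ with h | h
      · have h3 : ∑ k, (P k).coeff (d / 2) * ∏ l ∈ Finset.univ.erase k, (ρ0 * w l) = 0 := by
          rw [← h1]
          refine Finset.sum_congr rfl fun k _ => ?_
          congr 1
          exact Finset.prod_congr rfl fun l _ => (ha l).symm
        rw [key] at h3
        exact (mul_eq_zero.mp h3).resolve_left (pow_ne_zero _ h)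
      · have h3 : ∑ k, (P k).coeff (d / 2) * ∏ l ∈ Finset.univ.erase k, (σ0 * w l) = 0 := by
          rw [← h2]
          refine Finset.sum_congr rfl fun k _ => ?_
          congr 1
          exact Finset.prod_congr rfl fun l _ => (hb l).symm
        rw [key] at h3
        exact (mul_eq_zero.mp h3).resolve_left (pow_ne_zero _ h)
    · have hκ0 : κ = 0 := if_neg hev
      simp only [hν, hκ0, zero_mul, Finset.sum_const_zero]
  obtain ⟨c, hc0, hcw, hcν⟩ := exists_relation w ν (by omega) hrel
  obtain ⟨u, μ, hu0, hu, hμ, hsum⟩ := pert w ν c hc0 hcw (by simpa using hcν)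
  set e : ℕ → ℂ := fun n => 1 / ((n : ℂ) + 1) with he
  have he0 : ∀ n, e n ≠ 0 := fun n => one_div_ne_zero (Nat.cast_add_one_ne_zero n)
  have het : Tendsto e atTop (𝓝 0) := tendsto_one_div_add_atTop_nhds_zero_nat
  obtain ⟨σ, hσ0, hσ⟩ : ∃ σ : ℕ → ℂ, (∀ n, σ n ≠ 0) ∧ Tendsto σ atTop (𝓝 σ0) := by
    by_cases h : σ0 = 0
    · exact ⟨e, he0, h ▸ het⟩
    · exact ⟨fun _ => σ0, fun _ => h, tendsto_const_nhds⟩
  set R : ℕ → Fin d → ℂ[X] := fun n k => P k - C ((P k).coeff 0) +
    C (σ n * u n k - (P k).coeff d) * X ^ d + C (κ * (μ n k - ν k)) * X ^ (d / 2) with hR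
  have hm1 : 0 < d / 2 := by omega
  have hm2 : d / 2 < d := by omega
  have hRc : ∀ n k j, (R n k).coeff j = (P k).coeff j - (if j = 0 then (P k).coeff 0 else 0) +
      (if j = d then σ n * u n k - (P k).coeff d else 0) +
      (if j = d / 2 then κ * (μ n k - ν k) else 0) := by
    intro n k j
    rw [hR]
    simp only [coeff_add, coeff_sub, coeff_C, coeff_C_mul, coeff_X_pow]
    split_ifs <;> simp
  have hRdeg : ∀ n k, (R n k).natDegree = d := by
    intro n k
    apply natDegree_eq_of_le_of_coeff_ne_zero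
    · rw [natDegree_le_iff_coeff_eq_zero]
      intro j hj
      rw [hRc, if_neg (by omega), if_neg (by omega), if_neg (by omega),
        coeff_eq_zero_of_natDegree_lt (lt_of_le_of_lt (hdeg k) hj)]
      ring
    · rw [hRc, if_neg (by omega), if_pos rfl, if_neg (by omega)]
      have : (P k).coeff d - 0 + (σ n * u n k - (P k).coeff d) + 0 = σ n * u n k := by ring
      rw [this]
      exact mul_ne_zero (hσ0 n) (hu0 n k)
  have hρ : ∀ n : ℕ, ∃ z : ℂ, z ∉ Finset.univ.biUnion (fun k : Fin d =>
      (derivative (R n k)).roots.toFinset.image (fun r => -(R n k).eval r / u n k)) ∧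
      ‖z - ρ0‖ < 1 / ((n : ℝ) + 1) := fun n => exists_near ρ0 _ (by positivity)
  choose ρ hρ1 hρ2 using hρ
  have hρt : Tendsto ρ atTop (𝓝 ρ0) := by
    rw [tendsto_iff_norm_sub_tendsto_zero]
    exact squeeze_zero (fun n => norm_nonneg _) (fun n => (hρ2 n).le)
      tendsto_one_div_add_atTop_nhds_zero_nat
  set Q : ℕ → Fin d → ℂ[X] := fun n k => R n k + C (ρ n * u n k) with hQ
  have hQc : ∀ n k j, (Q n k).coeff j = (R n k).coeff j + (if j = 0 then ρ n * u n k else 0) := by
    intro n k j
    rw [hQ]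
    simp only [coeff_add, coeff_C]
  have hQdeg : ∀ n k, (Q n k).natDegree = d := by
    intro n k
    rw [hQ]
    simp only
    rw [natDegree_add_C, hRdeg]
  refine ⟨Q, u, ρ, σ, hu0, hQdeg, ?_, ?_, ?_, ?_, ?_⟩
  · intro n k
    rw [hQc, hRc]
    simp only [if_true, show ¬ (0 = d) by omega, show ¬ (0 = d / 2) by omega, if_false]
    ring
  · intro n k
    rw [hQc, hRc]
    simp only [if_true, show ¬ (d = 0) by omega, show ¬ (d = d / 2) by omega, if_false]
    ring
  · intro hev n
    have hκ1 : κ = 1 := if_pos hev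
    rw [← hsum n]
    refine Finset.sum_congr rfl fun k _ => ?_
    rw [hQc, hRc, smul_eq_mul]
    simp only [if_true, show ¬ (d / 2 = 0) by omega, show ¬ (d / 2 = d) by omega, if_false, hν, hκ1]
    ring
  · intro n k
    have hQ0 : Q n k ≠ 0 := by
      intro h
      have := hQdeg n k
      rw [h, natDegree_zero] at this
      omega
    rw [Multiset.nodup_iff_count_le_one]
    intro t
    rw [count_roots]
    by_contra hcon
    push Not at hcon
    obtain ⟨h1, h2⟩ := (one_lt_rootMultiplicity_iff_isRoot hQ0).mp hcon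
    have h3 : derivative (Q n k) = derivative (R n k) := by
      rw [hQ]
      simp
    rw [h3] at h2
    have hR0 : derivative (R n k) ≠ 0 := by
      intro h
      have h4 := derivative_eq_zero.mp h
      rw [hRdeg] at h4
      omega
    apply hρ1 n
    rw [Finset.mem_biUnion]
    refine ⟨k, Finset.mem_univ k, ?_⟩
    rw [Finset.mem_image]
    refine ⟨t, ?_, ?_⟩
    · rw [Multiset.mem_toFinset, mem_roots hR0]
      exact h2
    · have h4 : (R n k).eval t + ρ n * u n k = 0 := by
        have := h1
        rw [IsRoot.def, hQ] at this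
        simpa using this
      have := hu0 n k
      field_simp
      linear_combination -h4
  · intro k j
    have hlim : Tendsto (fun n => (P k).coeff j - (if j = 0 then (P k).coeff 0 else 0) +
        (if j = d then σ n * u n k - (P k).coeff d else 0) +
        (if j = d / 2 then κ * (μ n k - ν k) else 0) + (if j = 0 then ρ n * u n k else 0)) atTop
        (𝓝 ((P k).coeff j - (if j = 0 then (P k).coeff 0 else 0) +
        (if j = d then σ0 * w k - (P k).coeff d else 0) +
        (if j = d / 2 then κ * (ν k - ν k) else 0) + (if j = 0 then ρ0 * w k else 0))) := by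
      refine ((tendsto_const_nhds.add ?_).add ?_).add ?_
      · split_ifs
        · exact (hσ.mul (hu k)).sub_const _
        · exact tendsto_const_nhds
      · split_ifs
        · exact ((hμ k).sub_const _).const_mul _
        · exact tendsto_const_nhds
      · split_ifs
        · exact hρt.mul (hu k)
        · exact tendsto_const_nhds
    have h1 : (P k).coeff j - (if j = 0 then (P k).coeff 0 else 0) +
        (if j = d then σ0 * w k - (P k).coeff d else 0) +
        (if j = d / 2 then κ * (ν k - ν k) else 0) + (if j = 0 then ρ0 * w k else 0) =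
        (P k).coeff j := by
      rw [← ha, ← hb]
      split_ifs <;> ring
    rw [h1] at hlim
    refine hlim.congr fun n => ?_
    rw [hQc, hRc]

end Pool.Agent.Helper54.EC1
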