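import Mathlib
import Pool.Graph.R_seed8.Helper834.EC.Defs

/-! Definitions for the equations of the eigencompatibility variety of binary tensors. -/

set_option autoImplicit false

namespace Pool.Agent.Helper54.EC1

open Pool.Agent.Helper834.EC

/-- For `y` a system of homogeneous coordinates of `(X_1, ..., X_d)` and `k ≤ d`, the binary form
with zero divisor `X_k`, in the isotropic coordinates `x_0 ± i x_1` of `V = ℂ²`, dehomogenized:
if the `j`-th point of `X_k` is `[a_j : b_j]`, it is
`∏_j ((a_j + i b_j) + (a_j - i b_j) t)`. -/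
noncomputable def isoPoly {d : ℕ} (y : Coord 1 d) (k : Fin d) : Polynomial ℂ :=
  ∏ j : Fin (D 1 d), (Polynomial.C (y.1 ((k, j), 0) + Complex.I * y.1 ((k, j), 1)) +
    Polynomial.C (y.1 ((k, j), 0) - Complex.I * y.1 ((k, j), 1)) * Polynomial.X)

/-- The tuples `(X_1, ..., X_d)` of zero dimensional eigenschemes, counted with multiplicities, of
a binary tensor `T`: the form `v ∧ (T ⌟ v^{d-1})` of degree `d`, the contraction being in all
factors but the `k`-th, is nonzero and `X_k` is its divisor. -/
def schemeConfs (d : ℕ) : Set (Conf 1 d) :=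
  {X | ∃ (T : Tensor 1 d) (c : Fin d → ℂ) (y : Coord 1 d), toConf y = X ∧
    ∀ k, c k ≠ 0 ∧ ∀ v : V 1, v 0 * contract T k v 1 - v 1 * contract T k v 0 =
      c k * ∏ j : Fin (D 1 d), (y.1 ((k, j), 0) * v 1 - y.1 ((k, j), 1) * v 0)}

/-- The equations: the extreme coefficients `(a_k : b_k)` of the `d` forms agree up to scalars, and
for even `d` the middle coefficients `m_k` satisfy `∑ m_k / a_k = 0` and `∑ m_k / b_k = 0` with
denominators cleared. -/
def Eqs {d : ℕ} (P : Fin d → Polynomial ℂ) : Prop :=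
  (∀ k l, (P k).coeff 0 * (P l).coeff d = (P l).coeff 0 * (P k).coeff d) ∧
  (Even d → ∑ k, (P k).coeff (d / 2) * ∏ l ∈ Finset.univ.erase k, (P l).coeff 0 = 0 ∧
    ∑ k, (P k).coeff (d / 2) * ∏ l ∈ Finset.univ.erase k, (P l).coeff d = 0)

end Pool.Agent.Helper54.EC1
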