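import Pool.Agent.Helper54.EC1.Real
import Pool.Agent.Helper54.EC1.Approx

/-! Unique factorization of binary forms and points of the projective line. -/

set_option autoImplicit false

namespace Pool.Agent.Helper54.EC1

open MvPolynomial Pool.Agent.Helper834.EC
open scoped LinearAlgebra.Projectivization

/-- the bivariate linear form which vanishes at `v` -/
noncomputable def psi (v : V 1) : Bi := C (v 0) * X 1 - C (v 1) * X 0

theorem eval_psi (v w : V 1) : eval w (psi v) = v 0 * w 1 - v 1 * w 0 := by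
  unfold psi
  simp

theorem psi_homog (v : V 1) : (psi v).IsHomogeneous 1 := by
  unfold psi
  apply IsHomogeneous.sub
  · have := (isHomogeneous_C (Fin (1 + 1)) (v 0)).mul (isHomogeneous_X ℂ (1 : Fin (1 + 1)))
    rwa [zero_add] at this
  · have := (isHomogeneous_C (Fin (1 + 1)) (v 1)).mul (isHomogeneous_X ℂ (0 : Fin (1 + 1)))
    rwa [zero_add] at this

theorem ev_psi (v : V 1) : ev (psi v) = Polynomial.C (1 / (2 * Complex.I)) * lin v := by
  unfold psi lin zz zb
  rw [map_sub, map_mul, map_mul, ev_C, ev_C, ev_X0, ev_X1]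
  unfold e0 e1
  have hI : Complex.I ≠ 0 := Complex.I_ne_zero
  have h4 : (Polynomial.C (1 / (2 * Complex.I)) : Polynomial ℂ) =
      Polynomial.C (-Complex.I) * Polynomial.C (1 / 2) := by
    rw [← Polynomial.C_mul]
    congr 1
    field_simp
    rw [Complex.I_sq]; ring
  have h6 : (Polynomial.C Complex.I * Polynomial.C Complex.I : Polynomial ℂ) = -1 := by
    rw [← Polynomial.C_mul, Complex.I_mul_I, Polynomial.C_neg, Polynomial.C_1]
  rw [h4]
  simp only [Polynomial.C_add, Polynomial.C_sub, Polynomial.C_mul, Polynomial.C_neg]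
  linear_combination (-Polynomial.C (v 1) * Polynomial.C (1 / 2) * Polynomial.X + Polynomial.C (v 1) * Polynomial.C (1 / 2)) * h6

theorem psi_ne_zero {v : V 1} (hv : v ≠ 0) : psi v ≠ 0 := by
  intro h
  have h1 := congrArg ev h
  rw [ev_psi, map_zero] at h1
  rcases mul_eq_zero.mp h1 with h2 | h2
  · rw [Polynomial.C_eq_zero] at h2
    exact (one_div_ne_zero (mul_ne_zero two_ne_zero Complex.I_ne_zero)) h2
  · exact lin_ne_zero hv h2

theorem psi_smul (c : ℂ) (v : V 1) : psi (c • v) = C c * psi v := by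
  unfold psi
  simp only [Pi.smul_apply, smul_eq_mul, C_mul]
  ring

theorem eval_psi_self (v : V 1) : eval v (psi v) = 0 := by
  rw [eval_psi]; ring

theorem mk_eq_of_psi {v w : V 1} (hv : v ≠ 0) (hw : w ≠ 0) (h : eval w (psi v) = 0) :
    Projectivization.mk ℂ v hv = Projectivization.mk ℂ w hw := by
  rw [eval_psi] at h
  obtain ⟨c, hc⟩ := par_smul hv ((par_iff v w).mpr (by linear_combination h))
  rw [Projectivization.mk_eq_mk_iff']
  have hc0 : c ≠ 0 := by
    rintro rfl
    exact hw (by rw [hc, zero_smul])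
  exact ⟨c⁻¹, by rw [hc, smul_smul, inv_mul_cancel₀ hc0, one_smul]⟩

/-- multisets of points are determined by the products of their forms -/
theorem multiset_eq : ∀ (A B : Multiset (ℙ ℂ (V 1))) (a b : ℂ), a ≠ 0 → b ≠ 0 →
    A.card = B.card → C a * (A.map fun p => psi p.rep).prod = C b * (B.map fun p => psi p.rep).prod →
    A = B := by
  intro A
  induction A using Multiset.induction_on with
  | empty =>
    intro B a b _ _ hcard _
    rw [Multiset.card_zero] at hcard
    exact (Multiset.card_eq_zero.mp hcard.symm).symm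
  | cons p A ih =>
    intro B a b ha hb hcard h
    have h1 := congrArg (eval p.rep) h
    rw [Multiset.map_cons, Multiset.prod_cons, map_mul, map_mul, eval_psi_self, zero_mul, mul_zero,
      map_mul, eval_C] at h1
    have h2 := (mul_eq_zero.mp h1.symm).resolve_left hb
    rw [map_multiset_prod, Multiset.prod_eq_zero_iff, Multiset.map_map, Multiset.mem_map] at h2
    obtain ⟨q, hq, hq0⟩ := h2
    rw [Function.comp_apply] at hq0
    have hqp : q = p := by
      have := mk_eq_of_psi q.rep_nonzero p.rep_nonzero hq0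
      rwa [Projectivization.mk_rep, Projectivization.mk_rep] at this
    subst hqp
    obtain ⟨B', rfl⟩ := Multiset.exists_cons_of_mem hq
    rw [Multiset.map_cons, Multiset.prod_cons, Multiset.map_cons, Multiset.prod_cons] at h
    rw [Multiset.card_cons, Multiset.card_cons] at hcard
    have h3 : psi q.rep * (C a * (A.map fun p => psi p.rep).prod) =
        psi q.rep * (C b * (B'.map fun p => psi p.rep).prod) := by
      linear_combination h
    rw [ih B' a b ha hb (by omega) (mul_left_cancel₀ (psi_ne_zero q.rep_nonzero) h3)]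

theorem rep_smul {v : V 1} (hv : v ≠ 0) : ∃ c : ℂ, c ≠ 0 ∧ v = c • (Projectivization.mk ℂ v hv).rep := by
  obtain ⟨c, hc⟩ := Projectivization.exists_smul_eq_mk_rep ℂ v hv
  refine ⟨((c⁻¹ : ℂˣ) : ℂ), Units.ne_zero _, ?_⟩
  rw [← hc, ← Units.smul_def, smul_smul, inv_mul_cancel, one_smul]

theorem prod_psi_eq {M : ℕ} (f : Fin M → V 1) (hf : ∀ j, f j ≠ 0) : ∃ c : ℂ, c ≠ 0 ∧
    ∏ j, psi (f j) = C c * ((Finset.univ.val.map fun j => Projectivization.mk ℂ (f j) (hf j)).map
      fun p => psi p.rep).prod := by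
  choose c hc0 hc using fun j => rep_smul (hf j)
  refine ⟨∏ j, c j, Finset.prod_ne_zero_iff.mpr fun j _ => hc0 j, ?_⟩
  rw [Multiset.map_map, map_prod]
  change _ = (∏ j, C (c j)) * ∏ j, psi (Projectivization.mk ℂ (f j) (hf j)).rep
  rw [← Finset.prod_mul_distrib]
  refine Finset.prod_congr rfl fun j _ => ?_
  conv_lhs => rw [hc j]
  rw [psi_smul]

theorem prod_psi_homog {M : ℕ} (f : Fin M → V 1) : (∏ j, psi (f j)).IsHomogeneous M := by
  have := IsHomogeneous.prod Finset.univ (fun j => psi (f j)) (fun _ => 1)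
    (fun j _ => psi_homog (f j))
  simpa using this

theorem ev_prod_psi {M : ℕ} (f : Fin M → V 1) : ev (∏ j, psi (f j)) =
    Polynomial.C ((1 / (2 * Complex.I)) ^ M) * ∏ j, lin (f j) := by
  rw [map_prod, Finset.prod_congr rfl fun j _ => ev_psi (f j), Finset.prod_mul_distrib,
    Finset.prod_const, Finset.card_univ, Fintype.card_fin, Polynomial.C_pow]

theorem pow_ne (M : ℕ) : ((1 / (2 * Complex.I)) ^ M : ℂ) ≠ 0 :=
  pow_ne_zero _ (one_div_ne_zero (mul_ne_zero two_ne_zero Complex.I_ne_zero))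

/-- Proportional products of linear forms have the same points. -/
theorem map_eq_of_prod {M : ℕ} (f g : Fin M → V 1) (hf : ∀ j, f j ≠ 0) (hg : ∀ j, g j ≠ 0) (s : ℂ)
    (hs : s ≠ 0) (h : ∏ j, lin (f j) = Polynomial.C s * ∏ j, lin (g j)) :
    (Finset.univ.val.map fun j => Projectivization.mk ℂ (f j) (hf j)) =
      Finset.univ.val.map fun j => Projectivization.mk ℂ (g j) (hg j) := by
  have h1 : ∏ j, psi (f j) = C s * ∏ j, psi (g j) := by
    apply ev_injective (prod_psi_homog f)
    · have := (isHomogeneous_C (Fin (1 + 1)) s).mul (prod_psi_homog g)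
      rwa [zero_add] at this
    · rw [map_mul, ev_prod_psi, ev_prod_psi, ev_C, h]
      ring
  obtain ⟨a, ha, h2⟩ := prod_psi_eq f hf
  obtain ⟨b, hb, h3⟩ := prod_psi_eq g hg
  rw [h2, h3, ← mul_assoc, ← C_mul] at h1
  exact multiset_eq _ _ a (s * b) ha (mul_ne_zero hs hb) (by simp) h1

/-- The same points have proportional products of linear forms. -/
theorem prod_of_map_eq {M : ℕ} (f g : Fin M → V 1) (hf : ∀ j, f j ≠ 0) (hg : ∀ j, g j ≠ 0)
    (h : (Finset.univ.val.map fun j => Projectivization.mk ℂ (f j) (hf j)) =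
      Finset.univ.val.map fun j => Projectivization.mk ℂ (g j) (hg j)) :
    ∃ s : ℂ, s ≠ 0 ∧ ∏ j, lin (f j) = Polynomial.C s * ∏ j, lin (g j) := by
  obtain ⟨a, ha, h2⟩ := prod_psi_eq f hf
  obtain ⟨b, hb, h3⟩ := prod_psi_eq g hg
  rw [h] at h2
  have h4 : ∏ j, psi (f j) = C (a * b⁻¹) * ∏ j, psi (g j) := by
    rw [h2, h3, ← mul_assoc, ← C_mul, mul_assoc, inv_mul_cancel₀ hb, mul_one]
  have h5 := congrArg ev h4
  rw [map_mul, ev_prod_psi, ev_prod_psi, ev_C] at h5
  refine ⟨a * b⁻¹, mul_ne_zero ha (inv_ne_zero hb), ?_⟩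
  have h6 : (Polynomial.C ((1 / (2 * Complex.I)) ^ M) : Polynomial ℂ) ≠ 0 :=
    Polynomial.C_ne_zero.mpr (pow_ne M)
  apply mul_left_cancel₀ h6
  rw [h5]
  ring

end Pool.Agent.Helper54.EC1
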