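import Pool.Agent.Helper54.EC1.Iso

/-! The binary forms of the eigenschemes of a binary tensor. -/

set_option autoImplicit false

namespace Pool.Agent.Helper54.EC1

open MvPolynomial Pool.Agent.Helper834.EC

/-- the linear form in `t` of a vector -/
noncomputable def lin (v : V 1) : Polynomial ℂ :=
  Polynomial.C (zz v) + Polynomial.C (zb v) * Polynomial.X

theorem zz_zb_eq_zero {v : V 1} (h1 : zz v = 0) (h2 : zb v = 0) : v = 0 := by
  unfold zz at h1
  unfold zb at h2
  have h3 : v 0 = 0 := by linear_combination (1 / 2 : ℂ) * h1 + (1 / 2 : ℂ) * h2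
  have h4 : v 1 = 0 := by
    have : Complex.I * v 1 = 0 := by linear_combination (1 / 2 : ℂ) * h1 - (1 / 2 : ℂ) * h2
    exact (mul_eq_zero.mp this).resolve_left Complex.I_ne_zero
  funext a
  fin_cases a
  · exact h3
  · exact h4

theorem lin_coeff0 (v : V 1) : (lin v).coeff 0 = zz v := by simp [lin]
theorem lin_coeff1 (v : V 1) : (lin v).coeff 1 = zb v := by simp [lin]

theorem lin_ne_zero {v : V 1} (hv : v ≠ 0) : lin v ≠ 0 := by
  intro h
  apply hv
  apply zz_zb_eq_zero
  · rw [← lin_coeff0, h, Polynomial.coeff_zero]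
  · rw [← lin_coeff1, h, Polynomial.coeff_zero]

theorem lin_smul (c : ℂ) (v : V 1) : lin (c • v) = Polynomial.C c * lin v := by
  unfold lin
  rw [zz_smul, zb_smul, Polynomial.C_mul, Polynomial.C_mul]
  ring

theorem natDegree_lin_le (v : V 1) : (lin v).natDegree ≤ 1 := by
  unfold lin
  compute_degree

theorem natDegree_lin {v : V 1} (h : zb v ≠ 0) : (lin v).natDegree = 1 := by
  unfold lin
  compute_degree!

theorem natDegree_lin_zero {v : V 1} (h : zb v = 0) : (lin v).natDegree = 0 := by
  unfold lin
  rw [h, Polynomial.C_0, zero_mul, add_zero, Polynomial.natDegree_C]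

/-- parallel vectors -/
def Par (v w : V 1) : Prop := zz v * zb w = zz w * zb v

theorem par_iff (v w : V 1) : Par v w ↔ v 0 * w 1 = v 1 * w 0 := by
  unfold Par zz zb
  have hI : Complex.I ≠ 0 := Complex.I_ne_zero
  constructor
  · intro h
    have : 2 * Complex.I * (v 0 * w 1 - v 1 * w 0) = 0 := by linear_combination -h
    have h2 := (mul_eq_zero.mp this).resolve_left (mul_ne_zero two_ne_zero hI)
    linear_combination h2
  · intro h
    linear_combination (-2 * Complex.I) * h

theorem isCoprime_lin {v w : V 1} (h : ¬ Par v w) : IsCoprime (lin v) (lin w) := by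
  have hd : zz v * zb w - zz w * zb v ≠ 0 := sub_ne_zero.mpr h
  refine ⟨Polynomial.C ((zz v * zb w - zz w * zb v)⁻¹ * zb w),
    Polynomial.C (-((zz v * zb w - zz w * zb v)⁻¹ * zb v)), ?_⟩
  unfold lin
  have h1 : (Polynomial.C ((zz v * zb w - zz w * zb v)⁻¹ * zb w) *
      (Polynomial.C (zz v) + Polynomial.C (zb v) * Polynomial.X) +
      Polynomial.C (-((zz v * zb w - zz w * zb v)⁻¹ * zb v)) *
      (Polynomial.C (zz w) + Polynomial.C (zb w) * Polynomial.X) : Polynomial ℂ) =
      Polynomial.C ((zz v * zb w - zz w * zb v)⁻¹ * (zz v * zb w - zz w * zb v)) := by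
    simp only [Polynomial.C_mul, Polynomial.C_neg, Polynomial.C_sub]
    ring
  rw [h1, inv_mul_cancel₀ hd, Polynomial.C_1]

theorem eval_lin (v : V 1) (t : ℂ) : (lin v).eval t = zz v + zb v * t := by simp [lin]

theorem par_smul {v w : V 1} (hv : v ≠ 0) (h : Par v w) : ∃ c : ℂ, w = c • v := by
  rw [par_iff] at h
  by_cases h0 : v 0 = 0
  · have h1 : v 1 ≠ 0 := by
      intro h1
      apply hv
      funext a
      fin_cases a
      · exact h0
      · exact h1
    refine ⟨w 1 / v 1, ?_⟩
    rw [h0, zero_mul] at h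
    have h2 : w 0 = 0 := (mul_eq_zero.mp h.symm).resolve_left h1
    funext a
    fin_cases a
    · show w 0 = w 1 / v 1 * v 0
      rw [h2, h0, mul_zero]
    · show w 1 = w 1 / v 1 * v 1
      field_simp
  · refine ⟨w 0 / v 0, ?_⟩
    funext a
    fin_cases a
    · show w 0 = w 0 / v 0 * v 0
      field_simp
    · show w 1 = w 0 / v 0 * v 1
      field_simp
      linear_combination h

/-- a form which vanishes at a vector is divisible by its linear form -/
theorem lin_dvd {m : ℕ} {g : Bi} (hg : g.IsHomogeneous m) {v : V 1} (hv : v ≠ 0)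
    (h0 : eval v g = 0) : lin v ∣ ev g := by
  by_cases h : zb v = 0
  · have hz : zz v ≠ 0 := fun h1 => hv (zz_zb_eq_zero h1 h)
    have : lin v = Polynomial.C (zz v) := by
      unfold lin; rw [h, Polynomial.C_0, zero_mul, add_zero]
    rw [this]
    exact (Polynomial.isUnit_C.mpr (isUnit_iff_ne_zero.mpr hz)).dvd
  · have h1 : lin v = Polynomial.C (zb v) * (Polynomial.X - Polynomial.C (-(zz v / zb v))) := by
      unfold lin
      rw [mul_sub, ← Polynomial.C_mul]
      have : zb v * -(zz v / zb v) = -zz v := by field_simp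
      rw [this, Polynomial.C_neg]
      ring
    rw [h1]
    have h2 : (Polynomial.X - Polynomial.C (-(zz v / zb v)) : Polynomial ℂ) ∣ ev g := by
      rw [Polynomial.dvd_iff_isRoot, Polynomial.IsRoot.def, eval_ev]
      have h3 := h0
      rw [vec_of_zb h, eval_smul_homog hg] at h3
      exact (mul_eq_zero.mp h3).resolve_left (pow_ne_zero _ (neg_ne_zero.mpr h))
    exact (IsUnit.mul_left_dvd (Polynomial.isUnit_C.mpr (isUnit_iff_ne_zero.mpr h))).mpr h2

/-- a form which vanishes at as many distinct points as its degree is the product of their linear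
forms -/
theorem eq_prod_lin {m : ℕ} {g : Bi} (hg : g.IsHomogeneous m) (y : Fin m → V 1)
    (hy : ∀ j, y j ≠ 0) (hpar : ∀ i j, i ≠ j → ¬ Par (y i) (y j)) (h0 : ∀ j, eval (y j) g = 0) :
    ∃ c : ℂ, ev g = Polynomial.C c * ∏ j, lin (y j) := by
  by_cases hz : ev g = 0
  · exact ⟨0, by rw [hz, Polynomial.C_0, zero_mul]⟩
  have hdvd : (∏ j, lin (y j)) ∣ ev g := by
    apply Finset.prod_dvd_of_coprime
    · intro i _ j _ hij
      exact isCoprime_lin (hpar i j hij)
    · intro j _
      exact lin_dvd hg (hy j) (h0 j)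
  obtain ⟨R, hR⟩ := hdvd
  have hP : (∏ j, lin (y j)) ≠ 0 := Finset.prod_ne_zero_iff.mpr fun j _ => lin_ne_zero (hy j)
  have hR0 : R ≠ 0 := by
    rintro rfl
    exact hz (by rw [hR, mul_zero])
  have hdeg : (ev g).natDegree = (∏ j, lin (y j)).natDegree + R.natDegree := by
    rw [hR, Polynomial.natDegree_mul hP hR0]
  have hprod : (∏ j, lin (y j)).natDegree = ∑ j, (lin (y j)).natDegree :=
    Polynomial.natDegree_prod _ _ fun j _ => lin_ne_zero (hy j)
  have hRdeg : R.natDegree = 0 := by
    by_cases hall : ∀ j, zb (y j) ≠ 0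
    · have : ∑ j, (lin (y j)).natDegree = m := by
        rw [Finset.sum_congr rfl fun j _ => natDegree_lin (hall j)]
        simp
      have h1 := natDegree_ev hg
      omega
    · push Not at hall
      obtain ⟨j0, hj0⟩ := hall
      have h1 := coeff_top_of_zb hg hj0 (hy j0) (h0 j0)
      have h2 : (ev g).natDegree < m := by
        rcases lt_or_eq_of_le (natDegree_ev hg) with h | h
        · exact h
        · exfalso
          apply hz
          rw [← Polynomial.leadingCoeff_eq_zero, Polynomial.leadingCoeff, h]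
          exact h1
      have h3 : ∑ j, (lin (y j)).natDegree ≥ m - 1 := by
        rw [← Finset.add_sum_erase _ _ (Finset.mem_univ j0), natDegree_lin_zero hj0, zero_add]
        have h4 : ∀ j ∈ Finset.univ.erase j0, (lin (y j)).natDegree = 1 := by
          intro j hj
          apply natDegree_lin
          intro hjz
          apply hpar j j0 (Finset.ne_of_mem_erase hj)
          unfold Par
          rw [hjz, hj0, mul_zero, mul_zero]
        rw [Finset.sum_congr rfl h4]
        simp
      omega
  refine ⟨R.coeff 0, ?_⟩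
  rw [hR]
  conv_lhs => rw [Polynomial.eq_C_of_natDegree_eq_zero hRdeg]
  rw [mul_comm]

section tensor

variable {d : ℕ}

/-- the form `v ∧ T_k(v)` -/
noncomputable def om (T : Tensor 1 d) (k : Fin d) : Bi := X 0 * phiP k 1 T - X 1 * phiP k 0 T

theorem om_homog (hd : 1 ≤ d) (T : Tensor 1 d) (k : Fin d) : (om T k).IsHomogeneous d := by
  unfold om
  apply IsHomogeneous.sub
  · have := (isHomogeneous_X ℂ (0 : Fin (1 + 1))).mul (phiP_homog k 1 T)
    rwa [show 1 + (d - 1) = d by omega] at this
  · have := (isHomogeneous_X ℂ (1 : Fin (1 + 1))).mul (phiP_homog k 0 T)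
    rwa [show 1 + (d - 1) = d by omega] at this

theorem eval_om (T : Tensor 1 d) (k : Fin d) (v : V 1) : eval v (om T k) = minorR T k v 0 1 := by
  unfold om minorR
  rw [map_sub, map_mul, map_mul, eval_X, eval_X, eval_phiP, eval_phiP]

theorem isEig_iff (T : Tensor 1 d) (k : Fin d) (v : V 1) : IsEig T k v ↔ eval v (om T k) = 0 := by
  rw [eval_om]
  constructor
  · intro h; exact h 0 1
  · intro h a b
    fin_cases a <;> fin_cases b
    · simp [minorR]
    · exact h
    · have : minorR T k v 1 0 = - minorR T k v 0 1 := by unfold minorR; ring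
      exact this.trans (by rw [h, neg_zero])
    · simp [minorR]

theorem twoI_om (T : Tensor 1 d) (k : Fin d) :
    C (2 * Complex.I) * om T k = C 2 * formP 1 d T - C 2 * Z * (phiP k 0 T - C Complex.I * phiP k 1 T) := by
  rw [← sum_X_phiP k T, Fin.sum_univ_two]
  unfold om Z
  have h : (C Complex.I * C Complex.I : Bi) = -1 := by
    rw [← C_mul, Complex.I_mul_I, C_neg, C_1]
  rw [C_mul]
  linear_combination (-C 2 * X 1 * phiP k 1 T) * h

theorem twoI_om' (T : Tensor 1 d) (k : Fin d) :
    C (2 * Complex.I) * om T k = C 2 * Zb * (phiP k 0 T + C Complex.I * phiP k 1 T) -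
      C 2 * formP 1 d T := by
  rw [← sum_X_phiP k T, Fin.sum_univ_two]
  unfold om Zb
  have h : (C Complex.I * C Complex.I : Bi) = -1 := by
    rw [← C_mul, Complex.I_mul_I, C_neg, C_1]
  rw [C_mul]
  linear_combination (C 2 * X 1 * phiP k 1 T) * h

theorem ev_C (c : ℂ) : ev (C c) = Polynomial.C c := by
  simpa using ev.commutes c

theorem coeff0_om (T : Tensor 1 d) (k : Fin d) :
    (ev (om T k)).coeff 0 = -Complex.I * (ev (formP 1 d T)).coeff 0 := by
  have h := congrArg (fun p => (ev p).coeff 0) (twoI_om T k)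
  simp only [map_mul, map_sub, ev_C, ev_Z] at h
  simp only [mul_assoc, Polynomial.coeff_C_mul, Polynomial.coeff_sub,
    Polynomial.coeff_X_mul_zero, mul_zero, sub_zero] at h
  have hI := Complex.I_mul_I
  linear_combination (-Complex.I / 2) * h + (ev (om T k)).coeff 0 * hI

theorem coeffd_om (hd : 1 ≤ d) (T : Tensor 1 d) (k : Fin d) :
    (ev (om T k)).coeff d = Complex.I * (ev (formP 1 d T)).coeff d := by
  have h := congrArg (fun p => (ev p).coeff d) (twoI_om' T k)
  simp only [map_mul, map_sub, ev_C, ev_Zb] at h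
  have hF : (phiP k 0 T + C Complex.I * phiP k 1 T).IsHomogeneous (d - 1) := by
    apply (phiP_homog k 0 T).add
    have := (isHomogeneous_C (Fin (1 + 1)) Complex.I).mul (phiP_homog k 1 T)
    rwa [zero_add] at this
  have h2 : (ev (phiP k 0 T + C Complex.I * phiP k 1 T)).coeff d = 0 := by
    apply Polynomial.coeff_eq_zero_of_natDegree_lt
    have := natDegree_ev hF
    omega
  simp only [mul_assoc, Polynomial.coeff_C_mul, Polynomial.coeff_sub,
    neg_one_mul, Polynomial.coeff_neg, h2] at h
  have hI := Complex.I_mul_I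
  linear_combination (-Complex.I / 2) * h + (ev (om T k)).coeff d * hI

theorem sum_om (T : Tensor 1 d) :
    ∑ k, om T k = X 0 * pderiv 1 (formP 1 d T) - X 1 * pderiv 0 (formP 1 d T) := by
  rw [pderiv_formP, pderiv_formP, Finset.mul_sum, Finset.mul_sum, ← Finset.sum_sub_distrib]
  rfl

theorem derivative_ev (g : Bi) : Polynomial.derivative (ev g) =
    Polynomial.C (1 / 2) * ev (pderiv 0 g) + Polynomial.C (1 / (2 * Complex.I)) * ev (pderiv 1 g) := by
  have h0 : Polynomial.derivative e0 = Polynomial.C (1 / 2) := by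
    unfold e0
    simp [Polynomial.derivative_mul]
  have h1 : Polynomial.derivative e1 = Polynomial.C (1 / (2 * Complex.I)) := by
    unfold e1
    simp [Polynomial.derivative_mul]
  induction g using MvPolynomial.induction_on with
  | C a => rw [ev_C]; simp
  | add p q hp hq => rw [map_add, map_add, hp, hq, map_add, map_add, map_add, map_add]; ring
  | mul_X p i hp =>
    rw [map_mul, Polynomial.derivative_mul, hp, pderiv_mul, pderiv_mul]
    fin_cases i
    · simp only [Fin.zero_eta, Fin.isValue, map_add, map_mul, ev_X0, pderiv_X_self, mul_one]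
      rw [pderiv_X_of_ne (by decide : (0 : Fin (1+1)) ≠ 1), h0]
      rw [map_zero, mul_zero]
      ring
    · simp only [Fin.mk_one, Fin.isValue, map_add, map_mul, ev_X1, pderiv_X_self, mul_one]
      rw [pderiv_X_of_ne (by decide : (1 : Fin (1+1)) ≠ 0), h1]
      rw [map_zero, mul_zero]
      ring

theorem euler {m : ℕ} {g : Bi} (hg : g.IsHomogeneous m) :
    X 0 * pderiv 0 g + X 1 * pderiv 1 g = m • g := by
  have := hg.sum_X_mul_pderiv
  rw [Fin.sum_univ_two] at this
  exact this

theorem coeff_mid (g : Bi) {m : ℕ} (hg : g.IsHomogeneous (2 * m)) :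
    (ev (X 0 * pderiv 1 g - X 1 * pderiv 0 g)).coeff m = 0 := by
  have h1 : ev (X 0 * pderiv 1 g - X 1 * pderiv 0 g) = Polynomial.C Complex.I *
      (Polynomial.C 2 * (Polynomial.X * Polynomial.derivative (ev g)) -
        Polynomial.C ((2 * m : ℕ) : ℂ) * ev g) := by
    have h2 := congrArg ev (euler hg)
    rw [map_add, map_mul, map_mul, map_nsmul, nsmul_eq_mul, ev_X0, ev_X1] at h2
    have h3 : (Polynomial.C ((2 * m : ℕ) : ℂ) : Polynomial ℂ) = ((2 * m : ℕ) : Polynomial ℂ) := by
      rw [Polynomial.C_eq_natCast]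
    rw [h3, ← h2, derivative_ev, map_sub, map_mul, map_mul, ev_X0, ev_X1]
    unfold e0 e1
    have hI : Complex.I ≠ 0 := Complex.I_ne_zero
    have h4 : (Polynomial.C (1 / (2 * Complex.I)) : Polynomial ℂ) =
        Polynomial.C (-Complex.I) * Polynomial.C (1 / 2) := by
      rw [← Polynomial.C_mul]
      congr 1
      field_simp
      rw [Complex.I_sq]; ring
    have h5 : (Polynomial.C (-Complex.I) : Polynomial ℂ) = - Polynomial.C Complex.I := by
      rw [Polynomial.C_neg]
    have h6 : (Polynomial.C Complex.I * Polynomial.C Complex.I : Polynomial ℂ) = -1 := by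
      rw [← Polynomial.C_mul, Complex.I_mul_I, Polynomial.C_neg, Polynomial.C_1]
    have h7 : (Polynomial.C 2 * Polynomial.C (1 / 2) : Polynomial ℂ) = 1 := by
      rw [← Polynomial.C_mul]; norm_num
    rw [h4, h5]
    have h8 : (Polynomial.C 2 : Polynomial ℂ) = 2 := map_ofNat Polynomial.C 2
    rw [h8]
    linear_combination (-Polynomial.C (1 / 2) * (Polynomial.X + 1) * ev (pderiv 1 g) + 2 * Polynomial.X * Polynomial.C (1 / 2) * ev (pderiv 1 g)) * h6
  rw [h1, Polynomial.coeff_C_mul, Polynomial.coeff_sub, Polynomial.coeff_C_mul,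
    Polynomial.coeff_C_mul]
  rcases m with _ | m
  · simp
  · rw [Polynomial.coeff_X_mul, Polynomial.coeff_derivative]
    push_cast
    ring

end tensor

end Pool.Agent.Helper54.EC1
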