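import Mathlib
import Pool.Graph.R_seed8.Helper834.EC.Dimf1

/-! Binary forms in isotropic coordinates. -/

set_option autoImplicit false

namespace Pool.Agent.Helper54.EC1

open MvPolynomial Pool.Agent.Helper834.EC

/-- bivariate polynomials -/
abbrev Bi : Type := MvPolynomial (Fin (1 + 1)) ℂ

noncomputable def e0 : Polynomial ℂ := Polynomial.C (1 / 2) * (Polynomial.X - 1)
noncomputable def e1 : Polynomial ℂ := Polynomial.C (1 / (2 * Complex.I)) * (Polynomial.X + 1)

/-- restriction to the line `z = t`, `z̄ = -1` -/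
noncomputable def ev : Bi →ₐ[ℂ] Polynomial ℂ := aeval ![e0, e1]

theorem ev_X0 : ev (X 0) = e0 := by
  unfold ev; rw [aeval_X]; rfl

theorem ev_X1 : ev (X 1) = e1 := by
  unfold ev; rw [aeval_X]; rfl

/-- the isotropic coordinates -/
noncomputable def zz (v : V 1) : ℂ := v 0 + Complex.I * v 1
noncomputable def zb (v : V 1) : ℂ := v 0 - Complex.I * v 1

/-- the vector with `z = t`, `z̄ = -1` -/
noncomputable def vec (t : ℂ) : V 1 := ![1 / 2 * (t - 1), 1 / (2 * Complex.I) * (t + 1)]

theorem eval_ev (t : ℂ) (g : Bi) : (ev g).eval t = eval (vec t) g := by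
  have h : (Polynomial.evalRingHom t).comp (ev : Bi →+* Polynomial ℂ) = eval (vec t) := by
    apply MvPolynomial.ringHom_ext
    · intro r
      simp [ev]
    · intro i
      fin_cases i
      · simp [ev, e0, vec]
      · simp [ev, e1, vec]
  exact congrFun (congrArg DFunLike.coe h) g

theorem natDegree_e0 : e0.natDegree ≤ 1 := by
  unfold e0
  refine (Polynomial.natDegree_C_mul_le _ _).trans ?_
  exact (Polynomial.natDegree_X_sub_C (1 : ℂ)).le

theorem natDegree_e1 : e1.natDegree ≤ 1 := by
  unfold e1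
  refine (Polynomial.natDegree_C_mul_le _ _).trans ?_
  exact (Polynomial.natDegree_X_add_C (1 : ℂ)).le

theorem natDegree_ev {m : ℕ} {g : Bi} (hg : g.IsHomogeneous m) : (ev g).natDegree ≤ m := by
  unfold ev
  rw [aeval_def, eval₂_eq]
  apply Polynomial.natDegree_sum_le_of_forall_le
  intro s hs
  have hdeg : ∑ i, s i = m := by
    have := hg (mem_support_iff.mp hs)
    rw [← this, Finsupp.weight_apply, Finsupp.sum_fintype]
    · simp
    · simp
  refine (Polynomial.natDegree_mul_le).trans ?_
  have h1 : ((algebraMap ℂ (Polynomial ℂ)) (coeff s g)).natDegree = 0 :=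
    Polynomial.natDegree_C _
  rw [h1, zero_add]
  refine (Polynomial.natDegree_prod_le _ _).trans ?_
  calc ∑ i ∈ s.support, (![e0, e1] i ^ s i).natDegree ≤ ∑ i ∈ s.support, s i := by
        refine Finset.sum_le_sum fun i _ => ?_
        refine (Polynomial.natDegree_pow_le).trans ?_
        have : (![e0, e1] i).natDegree ≤ 1 := by
          fin_cases i
          · exact natDegree_e0
          · exact natDegree_e1
        calc s i * (![e0, e1] i).natDegree ≤ s i * 1 := Nat.mul_le_mul_left _ this
          _ = s i := mul_one _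
    _ ≤ ∑ i, s i := Finset.sum_le_univ_sum_of_nonneg (by simp)
    _ = m := hdeg

theorem zz_smul (c : ℂ) (v : V 1) : zz (c • v) = c * zz v := by
  simp [zz]; ring

theorem zb_smul (c : ℂ) (v : V 1) : zb (c • v) = c * zb v := by
  simp [zb]; ring

theorem vec_of_zb {v : V 1} (h : zb v ≠ 0) : v = (-zb v) • vec (-(zz v / zb v)) := by
  have hI : Complex.I ≠ 0 := Complex.I_ne_zero
  funext a
  fin_cases a
  · simp only [vec, Pi.smul_apply, smul_eq_mul]
    show v 0 = -zb v * (1 / 2 * (-(zz v / zb v) - 1))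
    field_simp
    unfold zz zb
    ring
  · simp only [vec, Pi.smul_apply, smul_eq_mul]
    show v 1 = -zb v * (1 / (2 * Complex.I) * (-(zz v / zb v) + 1))
    field_simp
    unfold zz zb
    ring

theorem eval_smul_homog {m : ℕ} {g : Bi} (hg : g.IsHomogeneous m) (c : ℂ) (v : V 1) :
    eval (c • v) g = c ^ m * eval v g := by
  rw [eval_eq, eval_eq, Finset.mul_sum]
  refine Finset.sum_congr rfl fun s hs => ?_
  have hdeg : ∑ i ∈ s.support, s i = m := by
    have := hg (mem_support_iff.mp hs)
    rw [← this, Finsupp.weight_apply, Finsupp.sum]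
    simp
  simp only [Pi.smul_apply, smul_eq_mul, mul_pow]
  rw [Finset.prod_mul_distrib, Finset.prod_pow_eq_pow_sum, hdeg]
  ring

/-- the homogenization formula at the vectors with `z̄ ≠ 0` -/
theorem eval_of_zb {m : ℕ} {g : Bi} (hg : g.IsHomogeneous m) {v : V 1} (h : zb v ≠ 0) :
    eval v g = ∑ j ∈ Finset.range (m + 1), (ev g).coeff j * zz v ^ j * (-zb v) ^ (m - j) := by
  conv_lhs => rw [vec_of_zb h]
  rw [eval_smul_homog hg, ← eval_ev, Polynomial.eval_eq_sum_range' (Nat.lt_succ_of_le
    (natDegree_ev hg)), Finset.mul_sum]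
  refine Finset.sum_congr rfl fun j hj => ?_
  have hj' : j ≤ m := Nat.lt_succ_iff.mp (Finset.mem_range.mp hj)
  have h2 : (-zb v) ^ m = (-zb v) ^ (m - j) * (-zb v) ^ j := by
    rw [← pow_add]; congr 1; omega
  have h3 : (-zb v) ^ j * (-(zz v / zb v)) ^ j = zz v ^ j := by
    rw [← mul_pow]
    congr 1
    field_simp
  rw [h2]
  linear_combination ((-zb v) ^ (m - j) * (ev g).coeff j) * h3

noncomputable def Z : Bi := X 0 + C Complex.I * X 1
noncomputable def Zb : Bi := X 0 - C Complex.I * X 1

theorem eval_Z (v : V 1) : eval v Z = zz v := by simp [Z, zz]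
theorem eval_Zb (v : V 1) : eval v Zb = zb v := by simp [Zb, zb]

theorem Zb_ne_zero : Zb ≠ 0 := by
  intro h
  have := congrArg (eval (![1, 0] : V 1)) h
  rw [eval_Zb, map_zero] at this
  simp [zb] at this

theorem Z_ne_zero : Z ≠ 0 := by
  intro h
  have := congrArg (eval (![1, 0] : V 1)) h
  rw [eval_Z, map_zero] at this
  simp [zz] at this

theorem ev_Z : ev Z = Polynomial.X := by
  unfold Z
  rw [map_add, map_mul, ev_X0, ev_X1]
  have : ev (C Complex.I) = Polynomial.C Complex.I := by
    simpa using ev.commutes Complex.I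
  rw [this]
  unfold e0 e1
  have hI : Complex.I ≠ 0 := Complex.I_ne_zero
  have h1 : Polynomial.C Complex.I * (Polynomial.C (1 / (2 * Complex.I)) * (Polynomial.X + 1)) =
      Polynomial.C (1 / 2) * (Polynomial.X + 1) := by
    rw [← mul_assoc, ← Polynomial.C_mul]
    congr 2
    field_simp
  rw [h1]
  have h2 : (Polynomial.C (1 / 2) * (Polynomial.X - 1) + Polynomial.C (1 / 2) * (Polynomial.X + 1) :
      Polynomial ℂ) = Polynomial.C (1 / 2 + 1 / 2) * Polynomial.X := by
    rw [Polynomial.C_add]; ring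
  rw [h2]
  norm_num

theorem ev_Zb : ev Zb = -1 := by
  unfold Zb
  rw [map_sub, map_mul, ev_X0, ev_X1]
  have : ev (C Complex.I) = Polynomial.C Complex.I := by
    simpa using ev.commutes Complex.I
  rw [this]
  unfold e0 e1
  have hI : Complex.I ≠ 0 := Complex.I_ne_zero
  have h1 : Polynomial.C Complex.I * (Polynomial.C (1 / (2 * Complex.I)) * (Polynomial.X + 1)) =
      Polynomial.C (1 / 2) * (Polynomial.X + 1) := by
    rw [← mul_assoc, ← Polynomial.C_mul]
    congr 2
    field_simp
  rw [h1]
  have h2 : (Polynomial.C (1 / 2) * (Polynomial.X - 1) - Polynomial.C (1 / 2) * (Polynomial.X + 1) :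
      Polynomial ℂ) = - Polynomial.C (1 / 2 + 1 / 2) := by
    rw [Polynomial.C_add]; ring
  rw [h2]
  norm_num

/-- the homogenization formula -/
theorem homog_formula {m : ℕ} {g : Bi} (hg : g.IsHomogeneous m) :
    g = ∑ j ∈ Finset.range (m + 1), C ((ev g).coeff j) * Z ^ j * (-Zb) ^ (m - j) := by
  have h : Zb * g = Zb * ∑ j ∈ Finset.range (m + 1), C ((ev g).coeff j) * Z ^ j *
      (-Zb) ^ (m - j) := by
    apply MvPolynomial.funext
    intro v
    rw [map_mul, map_mul, eval_Zb]
    by_cases h0 : zb v = 0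
    · rw [h0, zero_mul, zero_mul]
    · congr 1
      rw [eval_of_zb hg h0, map_sum]
      refine Finset.sum_congr rfl fun j _ => ?_
      rw [map_mul, map_mul, map_pow, map_pow, map_neg, eval_Z, eval_Zb, eval_C]
  exact mul_left_cancel₀ Zb_ne_zero h

theorem ev_injective {m : ℕ} {g g' : Bi} (hg : g.IsHomogeneous m) (hg' : g'.IsHomogeneous m)
    (h : ev g = ev g') : g = g' := by
  rw [homog_formula hg, homog_formula hg', h]

theorem eval_formula {m : ℕ} {g : Bi} (hg : g.IsHomogeneous m) (v : V 1) :
    eval v g = ∑ j ∈ Finset.range (m + 1), (ev g).coeff j * zz v ^ j * (-zb v) ^ (m - j) := by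
  conv_lhs => rw [homog_formula hg]
  rw [map_sum]
  refine Finset.sum_congr rfl fun j _ => ?_
  rw [map_mul, map_mul, map_pow, map_pow, map_neg, eval_Z, eval_Zb, eval_C]

/-- coefficient of the highest power -/
theorem coeff_top_of_zb {m : ℕ} {g : Bi} (hg : g.IsHomogeneous m) {v : V 1} (h : zb v = 0)
    (hv : v ≠ 0) (h0 : eval v g = 0) : (ev g).coeff m = 0 := by
  rw [eval_formula hg, h, neg_zero, Finset.sum_eq_single m] at h0
  · rw [Nat.sub_self, pow_zero, mul_one] at h0
    rcases mul_eq_zero.mp h0 with h1 | h1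
    · exact h1
    · exfalso
      apply hv
      have h2 : zz v = 0 := eq_zero_of_pow_eq_zero h1
      unfold zz at h2
      unfold zb at h
      have h3 : v 0 = 0 := by linear_combination (1 / 2 : ℂ) * h2 + (1 / 2 : ℂ) * h
      have h4 : v 1 = 0 := by
        have : Complex.I * v 1 = 0 := by linear_combination (1 / 2 : ℂ) * h2 - (1 / 2 : ℂ) * h
        exact (mul_eq_zero.mp this).resolve_left Complex.I_ne_zero
      funext a
      fin_cases a
      · exact h3
      · exact h4
  · intro j hj hjm
    have : m - j ≠ 0 := by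
      have := Finset.mem_range.mp hj
      omega
    rw [zero_pow this, mul_zero]
  · intro h
    exact absurd (Finset.mem_range.mpr (Nat.lt_succ_self m)) h

end Pool.Agent.Helper54.EC1
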