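import Pool.Agent.Helper54.EC1.Fact
import Pool.Agent.Helper54.EC1.Defs
import Pool.Graph.R_seed8.Helper834.EC.Topo4

/-! The equations of the eigencompatibility variety of binary tensors. -/

set_option autoImplicit false

namespace Pool.Agent.Helper54.EC1

open MvPolynomial Pool.Agent.Helper834.EC
open scoped LinearAlgebra.Projectivization

variable {d : ℕ}

theorem D_one (hd : 3 ≤ d) : D 1 d = d := by
  unfold D
  obtain ⟨e, rfl⟩ : ∃ e, d = e + 3 := ⟨d - 3, by omega⟩
  have h1 : (e + 3 - 1) ^ (1 + 1) - 1 = (e + 3) * (e + 1) := by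
    rw [show e + 3 - 1 = e + 2 by omega]
    rw [show (e + 2) ^ (1 + 1) = (e + 3) * (e + 1) + 1 by ring]
    omega
  rw [h1, show e + 3 - 2 = e + 1 by omega]
  exact Nat.mul_div_cancel _ (by omega)

/-- the vectors of a system of coordinates -/
def vk (y : Aff ((Fin d × Fin (D 1 d)) × Fin (1 + 1))) (k : Fin d) (j : Fin (D 1 d)) : V 1 :=
  fun a => y ((k, j), a)

theorem vk_ne (y : Coord 1 d) (k : Fin d) (j : Fin (D 1 d)) : vk y.1 k j ≠ 0 := y.2 (k, j)

theorem isoPoly_eq (y : Coord 1 d) (k : Fin d) : isoPoly y k = ∏ j, lin (vk y.1 k j) := rfl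

theorem eqs_scale {P P' : Fin d → Polynomial ℂ} (g : Fin d → ℂ)
    (h : ∀ k, P' k = Polynomial.C (g k) * P k) (hP : Eqs P) : Eqs P' := by
  obtain ⟨h1, h2⟩ := hP
  have hc : ∀ k i, (P' k).coeff i = g k * (P k).coeff i := by
    intro k i
    rw [h, Polynomial.coeff_C_mul]
  have key : ∀ i, ∑ k, (P' k).coeff (d / 2) * ∏ l ∈ Finset.univ.erase k, (P' l).coeff i =
      (∏ l, g l) * ∑ k, (P k).coeff (d / 2) * ∏ l ∈ Finset.univ.erase k, (P l).coeff i := by
    intro i
    rw [Finset.mul_sum]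
    refine Finset.sum_congr rfl fun k _ => ?_
    rw [hc, Finset.prod_congr rfl fun l _ => hc l i, Finset.prod_mul_distrib,
      ← Finset.mul_prod_erase Finset.univ g (Finset.mem_univ k)]
    ring
  refine ⟨fun k l => ?_, fun hev => ?_⟩
  · rw [hc, hc, hc, hc]
    linear_combination (g k * g l) * h1 k l
  · rw [key, key, (h2 hev).1, (h2 hev).2, mul_zero]
    exact ⟨rfl, rfl⟩

theorem eqs_om (hd : 3 ≤ d) (T : Tensor 1 d) : Eqs fun k => ev (om T k) := by
  refine ⟨fun k l => ?_, fun hev => ?_⟩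
  · simp only [coeff0_om, coeffd_om (by omega : 1 ≤ d)]
  · obtain ⟨m, hm⟩ := hev
    have hm2 : d / 2 = m := by omega
    have hsum : ∑ k, (ev (om T k)).coeff m = 0 := by
      have hF : (formP 1 d T).IsHomogeneous (2 * m) := by
        have : (formP 1 d T).IsHomogeneous d := by
          rw [← sum_X_phiP (⟨0, by omega⟩ : Fin d) T]
          refine IsHomogeneous.sum _ _ _ fun j _ => ?_
          have := (isHomogeneous_X ℂ j).mul (phiP_homog (⟨0, by omega⟩ : Fin d) j T)
          rwa [show 1 + (d - 1) = d by omega] at this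
        rwa [show 2 * m = d by omega]
      have h1 := coeff_mid (formP 1 d T) hF
      rw [← sum_om, map_sum, Polynomial.finsetSum_coeff] at h1
      exact h1
    have key : ∀ c : ℂ, ∑ k : Fin d, (ev (om T k)).coeff m * ∏ l ∈ Finset.univ.erase k, c = 0 := by
      intro c
      have : ∀ k : Fin d, ∏ l ∈ Finset.univ.erase k, c = c ^ (d - 1) := by
        intro k
        rw [Finset.prod_const, Finset.card_erase_of_mem (Finset.mem_univ k), Finset.card_univ,
          Fintype.card_fin]
      simp only [this]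
      rw [← Finset.sum_mul, hsum, zero_mul]
    simp only [coeff0_om, coeffd_om (by omega : 1 ≤ d), hm2]
    exact ⟨key _, key _⟩

/-- coordinates of the same configuration -/
theorem toConf_eq_iff (y y' : Coord 1 d) : toConf y = toConf y' ↔ ∀ k,
    (Finset.univ.val.map fun j => Projectivization.mk ℂ (vk y.1 k j) (vk_ne y k j)) =
      Finset.univ.val.map fun j => Projectivization.mk ℂ (vk y'.1 k j) (vk_ne y' k j) := by
  constructor
  · intro h k
    exact congrArg Subtype.val (congrFun h k)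
  · intro h
    funext k
    exact Subtype.ext (h k)

theorem isoPoly_of_toConf_eq {y y' : Coord 1 d} (h : toConf y = toConf y') (k : Fin d) :
    ∃ s : ℂ, s ≠ 0 ∧ isoPoly y k = Polynomial.C s * isoPoly y' k := by
  rw [isoPoly_eq, isoPoly_eq]
  exact prod_of_map_eq (vk y.1 k) (vk y'.1 k) (vk_ne y k) (vk_ne y' k)
    ((toConf_eq_iff y y').mp h k)

theorem toConf_eq_of_isoPoly {y y' : Coord 1 d}
    (h : ∀ k, ∃ s : ℂ, s ≠ 0 ∧ isoPoly y k = Polynomial.C s * isoPoly y' k) :
    toConf y = toConf y' := by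
  rw [toConf_eq_iff]
  intro k
  obtain ⟨s, hs, h1⟩ := h k
  rw [isoPoly_eq, isoPoly_eq] at h1
  exact map_eq_of_prod (vk y.1 k) (vk y'.1 k) (vk_ne y k) (vk_ne y' k) s hs h1

theorem eqs_congr {y y' : Coord 1 d} (h : toConf y = toConf y') (hy : Eqs (isoPoly y')) :
    Eqs (isoPoly y) := by
  choose s _ hs using isoPoly_of_toConf_eq h
  exact eqs_scale s hs hy

/-- the form of a binary tensor, from its values -/
theorem om_eq (T : Tensor 1 d) (k : Fin d) (c : ℂ) (f : Fin (D 1 d) → V 1)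
    (h : ∀ v : V 1, v 0 * contract T k v 1 - v 1 * contract T k v 0 =
      c * ∏ j : Fin (D 1 d), (f j 0 * v 1 - f j 1 * v 0)) : om T k = C c * ∏ j, psi (f j) := by
  apply MvPolynomial.funext
  intro v
  rw [eval_om, map_mul, eval_C, map_prod]
  simp only [eval_psi]
  exact h v

theorem eqs_of_scheme (hd : 3 ≤ d) {y : Coord 1 d} (h : toConf y ∈ schemeConfs d) :
    Eqs (isoPoly y) := by
  obtain ⟨T, c, y', hy', h⟩ := h
  apply eqs_congr hy'.symm
  have h1 : ∀ k, isoPoly y' k = Polynomial.C ((c k * (1 / (2 * Complex.I)) ^ (D 1 d))⁻¹) *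
      ev (om T k) := by
    intro k
    have h2 := om_eq T k (c k) (vk y'.1 k) (h k).2
    rw [h2, map_mul, ev_C, ev_prod_psi, ← isoPoly_eq]
    have h3 : c k * (1 / (2 * Complex.I)) ^ (D 1 d) ≠ 0 := mul_ne_zero (h k).1 (pow_ne _)
    rw [← mul_assoc (Polynomial.C (c k)), ← Polynomial.C_mul, ← mul_assoc, ← Polynomial.C_mul,
      inv_mul_cancel₀ h3, Polynomial.C_1, one_mul]
  exact eqs_scale _ h1 (eqs_om hd T)

end Pool.Agent.Helper54.EC1
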