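import Pool.Agent.Helper54.EC1.Main

/-! The equations define a closed set; reduced eigenschemes are eigenschemes. -/

set_option autoImplicit false

namespace Pool.Agent.Helper54.EC1

open MvPolynomial Pool.Agent.Helper834.EC
open scoped LinearAlgebra.Projectivization

variable {d : ℕ}

abbrev Sg (d : ℕ) : Type := (Fin d × Fin (D 1 d)) × Fin (1 + 1)

/-- the universal form -/
noncomputable def uni (d : ℕ) (k : Fin d) : Polynomial (MvPolynomial (Sg d) ℂ) :=
  ∏ j : Fin (D 1 d), (Polynomial.C (X ((k, j), 0) + C Complex.I * X ((k, j), 1)) +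
    Polynomial.C (X ((k, j), 0) - C Complex.I * X ((k, j), 1)) * Polynomial.X)

theorem eval_uni (y : Sg d → ℂ) (k : Fin d) (i : ℕ) :
    eval y ((uni d k).coeff i) = (∏ j, lin (vk y k j)).coeff i := by
  rw [← Polynomial.coeff_map]
  congr 1
  unfold uni
  rw [Polynomial.map_prod]
  refine Finset.prod_congr rfl fun j _ => ?_
  have e1 : eval y (X ((k, j), 0) + C Complex.I * X ((k, j), 1)) = zz (vk y k j) := by
    rw [map_add, map_mul, eval_X, eval_X, eval_C]; rfl
  have e2 : eval y (X ((k, j), 0) - C Complex.I * X ((k, j), 1)) = zb (vk y k j) := by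
    rw [map_sub, map_mul, eval_X, eval_X, eval_C]; rfl
  rw [Polynomial.map_add, Polynomial.map_mul, Polynomial.map_C, Polynomial.map_C, Polynomial.map_X,
    e1, e2]
  rfl

/-- the polynomials in the coordinates -/
def eqPolys (d : ℕ) : Set (MvPolynomial (Sg d) ℂ) :=
  {f | (∃ k l, f = (uni d k).coeff 0 * (uni d l).coeff d - (uni d l).coeff 0 * (uni d k).coeff d) ∨
    (Even d ∧ (f = ∑ k, (uni d k).coeff (d / 2) * ∏ l ∈ Finset.univ.erase k, (uni d l).coeff 0 ∨
      f = ∑ k, (uni d k).coeff (d / 2) * ∏ l ∈ Finset.univ.erase k, (uni d l).coeff d))}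

theorem eqs_iff (y : Aff (Sg d)) : Eqs (fun k => ∏ j, lin (vk y k j)) ↔ y ∈ zeros (eqPolys d) := by
  have key : ∀ i, eval (fun s => y s) (∑ k, (uni d k).coeff (d / 2) *
      ∏ l ∈ Finset.univ.erase k, (uni d l).coeff i) = ∑ k, (∏ j, lin (vk y k j)).coeff (d / 2) *
      ∏ l ∈ Finset.univ.erase k, (∏ j, lin (vk y l j)).coeff i := by
    intro i
    rw [map_sum]
    refine Finset.sum_congr rfl fun k _ => ?_
    rw [map_mul, map_prod]
    exact congrArg₂ _ (eval_uni y k _) (Finset.prod_congr rfl fun l _ => eval_uni y l _)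
  have key2 : ∀ k l, eval (fun s => y s) ((uni d k).coeff 0 * (uni d l).coeff d -
      (uni d l).coeff 0 * (uni d k).coeff d) = (∏ j, lin (vk y k j)).coeff 0 *
      (∏ j, lin (vk y l j)).coeff d - (∏ j, lin (vk y l j)).coeff 0 *
      (∏ j, lin (vk y k j)).coeff d := by
    intro k l
    rw [map_sub, map_mul, map_mul]
    exact congrArg₂ _ (congrArg₂ _ (eval_uni y k _) (eval_uni y l _))
      (congrArg₂ _ (eval_uni y l _) (eval_uni y k _))
  constructor
  · rintro ⟨h1, h2⟩ f (⟨k, l, rfl⟩ | ⟨hev, rfl | rfl⟩)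
    · rw [key2, h1, sub_self]
    · rw [key]; exact (h2 hev).1
    · rw [key]; exact (h2 hev).2
  · intro h
    refine ⟨fun k l => ?_, fun hev => ⟨?_, ?_⟩⟩
    · have := h _ (Or.inl ⟨k, l, rfl⟩)
      rw [key2] at this
      exact sub_eq_zero.mp this
    · have := h _ (Or.inr ⟨hev, Or.inl rfl⟩)
      rwa [key] at this
    · have := h _ (Or.inr ⟨hev, Or.inr rfl⟩)
      rwa [key] at this

/-- The equations define a closed set. -/
theorem isClosed_eqs (d : ℕ) : IsClosed {X : Conf 1 d | ∀ y : Coord 1 d, toConf y = X → Eqs (isoPoly y)} := by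
  have h1 : IsClosed (toConf ⁻¹' {X : Conf 1 d | ∀ y : Coord 1 d, toConf y = X → Eqs (isoPoly y)}) := by
    have h2 : toConf ⁻¹' {X : Conf 1 d | ∀ y : Coord 1 d, toConf y = X → Eqs (isoPoly y)} =
        Subtype.val ⁻¹' zeros (eqPolys d) := by
      ext y
      constructor
      · intro h
        exact (eqs_iff y.1).mp (h y rfl)
      · intro h y' hy'
        exact eqs_congr hy' ((eqs_iff y.1).mpr h)
    rw [h2]
    exact (isClosed_zeros _).preimage continuous_subtype_val
  exact isClosed_coinduced.mpr h1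

theorem closure_subset (hd : 3 ≤ d) {y : Coord 1 d} (h : toConf y ∈ closure (schemeConfs d)) :
    Eqs (isoPoly y) := by
  have h1 : closure (schemeConfs d) ⊆
      {X : Conf 1 d | ∀ y : Coord 1 d, toConf y = X → Eqs (isoPoly y)} := by
    apply closure_minimal _ (isClosed_eqs d)
    rintro X hX y rfl
    exact eqs_of_scheme hd hX
  exact h1 h y rfl

/-- A form which is a product of linear forms vanishes exactly at their points. -/
theorem mem_iff_of_prod {M : ℕ} (f : Fin M → V 1) (hf : ∀ j, f j ≠ 0) (T : Tensor 1 d) (k : Fin d)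
    (c : ℂ) (hc : c ≠ 0) (h : om T k = C c * ∏ j, psi (f j)) (p : ℙ ℂ (V 1)) :
    p ∈ (Finset.univ.val.map fun j => Projectivization.mk ℂ (f j) (hf j)) ↔ IsEigenpoint T k p := by
  induction p using Projectivization.ind with
  | h v hv =>
    rw [isEigenpoint_mk_iff, isEig_iff, h, map_mul, eval_C, map_prod, mul_eq_zero, or_iff_right hc,
      Finset.prod_eq_zero_iff, Multiset.mem_map]
    constructor
    · rintro ⟨j, _, hj⟩
      refine ⟨j, Finset.mem_univ j, ?_⟩
      rw [eval_psi]
      rw [Projectivization.mk_eq_mk_iff'] at hj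
      obtain ⟨a, ha⟩ := hj
      rw [← ha]
      simp only [Pi.smul_apply, smul_eq_mul]
      ring
    · rintro ⟨j, _, hj⟩
      exact ⟨j, Finset.mem_univ_val j, mk_eq_of_psi (hf j) hv hj⟩

theorem toConf_surjective : Function.Surjective (toConf : Coord 1 d → Conf 1 d) := by
  intro X
  obtain ⟨x, rfl⟩ := qq_surjective X
  obtain ⟨y, rfl⟩ := toX_surjective x
  exact ⟨y, rfl⟩

theorem exists_not_mem (A : Multiset (ℙ ℂ (V 1))) : ∃ p, p ∉ A := by
  classical
  by_contra h
  push Not at h
  have h1 : (Set.univ : Set (ℙ ℂ (V 1))) ⊆ (A.toFinset : Set (ℙ ℂ (V 1))) := fun p _ => by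
    simp [h p]
  have h2 : Finite (ℙ ℂ (V 1)) := Set.finite_univ_iff.mp (A.toFinset.finite_toSet.subset h1)
  let φ : ℂ → ℙ ℂ (V 1) := fun t => Projectivization.mk ℂ (![t, 1] : V 1) (fun h => by
    have := congrFun h 1
    simp at this)
  have hφ : Function.Injective φ := by
    intro s t hst
    have := (Projectivization.mk_eq_mk_iff' _ _ _ _ _).mp hst
    obtain ⟨a, ha⟩ := this
    have e0 := congrFun ha 0
    have e1 := congrFun ha 1
    simp at e0 e1
    rw [← e0, e1, one_mul]
  exact not_injective_infinite_finite φ hφ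

theorem eigenConfs_subset (hd : 3 ≤ d) : eigenConfs 1 d ⊆ schemeConfs d := by
  rintro X ⟨T, hT⟩
  obtain ⟨y, rfl⟩ := toConf_surjective X
  have hM : D 1 d = d := D_one hd
  have key : ∀ k, ∃ c : ℂ, c ≠ 0 ∧ om T k = C c * ∏ j, psi (vk y.1 k j) := by
    intro k
    obtain ⟨hnd, hmem⟩ := hT k
    have hcoe : ((toConf y k : Multiset (ℙ ℂ (V 1)))) =
        Finset.univ.val.map fun j => Projectivization.mk ℂ (vk y.1 k j) (vk_ne y k j) := rfl
    rw [hcoe] at hnd
    have hom : (om T k).IsHomogeneous (D 1 d) := by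
      rw [hM]; exact om_homog (by omega) T k
    have hinj := Multiset.inj_on_of_nodup_map hnd
    obtain ⟨c, hc⟩ := eq_prod_lin hom (vk y.1 k) (vk_ne y k) (by
      intro i j hij hpar
      apply hij
      apply hinj _ (Finset.mem_univ_val i) _ (Finset.mem_univ_val j)
      obtain ⟨a, ha⟩ := par_smul (vk_ne y k j) (by unfold Par at hpar ⊢; exact hpar.symm)
      exact (Projectivization.mk_eq_mk_iff' _ _ _ _ _).mpr ⟨a, ha.symm⟩) (by
      intro j
      rw [← isEig_iff, ← isEigenpoint_mk_iff T k _ (vk_ne y k j), ← hmem]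
      exact Multiset.mem_map_of_mem _ (Finset.mem_univ_val j))
    have h3 : ((1 / (2 * Complex.I)) ^ (D 1 d) : ℂ) ≠ 0 := pow_ne _
    have h4 : om T k = C (c * ((1 / (2 * Complex.I)) ^ (D 1 d))⁻¹) * ∏ j, psi (vk y.1 k j) := by
      apply ev_injective hom
      · have := (isHomogeneous_C (Fin (1 + 1)) (c * ((1 / (2 * Complex.I)) ^ (D 1 d))⁻¹)).mul
          (prod_psi_homog (vk y.1 k))
        rwa [zero_add] at this
      · rw [map_mul, ev_C, ev_prod_psi, hc, ← mul_assoc, ← Polynomial.C_mul, mul_assoc,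
          inv_mul_cancel₀ h3, mul_one]
    refine ⟨c * ((1 / (2 * Complex.I)) ^ (D 1 d))⁻¹, ?_, h4⟩
    intro h0
    rw [h0, C_0, zero_mul] at h4
    obtain ⟨p, hp⟩ := exists_not_mem (toConf y k : Multiset (ℙ ℂ (V 1)))
    apply hp
    have h5 : p ∈ toConf y k := by
      rw [hmem]
      induction p using Projectivization.ind with
      | h v hv => rw [isEigenpoint_mk_iff, isEig_iff, h4, map_zero]
    exact h5
  choose c hc0 hc using key
  refine ⟨T, c, y, rfl, fun k => ⟨hc0 k, fun v => ?_⟩⟩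
  have h1 : eval v (om T k) = v 0 * contract T k v 1 - v 1 * contract T k v 0 := eval_om T k v
  rw [← h1, hc k, map_mul, eval_C, map_prod]
  simp only [eval_psi]
  rfl

end Pool.Agent.Helper54.EC1
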