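import Pool.Agent.Helper54.EC1.Main2

/-! The solutions of the equations are limits of reduced eigenschemes. -/

set_option autoImplicit false

namespace Pool.Agent.Helper54.EC1

open MvPolynomial Pool.Agent.Helper834.EC Filter Topology
open scoped LinearAlgebra.Projectivization

variable {d : ℕ}

theorem exists_fn {α : Type*} {M : ℕ} (A : Multiset α) (h : A.card = M) :
    ∃ f : Fin M → α, Finset.univ.val.map f = A := by
  obtain ⟨l, hl⟩ := Quotient.exists_rep A
  have hlen : l.length = M := by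
    rw [← hl] at h
    exact h
  refine ⟨fun j => l.get (Fin.cast hlen.symm j), ?_⟩
  rw [← hl]
  have h1 : Finset.univ.val.map (fun j : Fin M => l.get (Fin.cast hlen.symm j)) =
      ((List.ofFn fun j : Fin M => l.get (Fin.cast hlen.symm j) : List _) : Multiset _) := by
    rw [Fin.univ_val_map]
  rw [h1]
  congr 1
  apply List.ext_getElem
  · simp [hlen]
  · intro i h1 h2
    simp

theorem exists_roots {Q : Polynomial ℂ} {M : ℕ} (hQ : Q.natDegree = M) (hnd : Q.roots.Nodup) :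
    ∃ r : Fin M → ℂ, Function.Injective r ∧
      Q = Polynomial.C Q.leadingCoeff * ∏ j, (Polynomial.X - Polynomial.C (r j)) := by
  have hs : Q.Splits := IsAlgClosed.splits Q
  obtain ⟨r, hr⟩ := exists_fn Q.roots (by rw [← hs.natDegree_eq_card_roots, hQ])
  refine ⟨r, ?_, ?_⟩
  · rw [← hr] at hnd
    intro i j hij
    exact Multiset.inj_on_of_nodup_map hnd i (Finset.mem_univ_val i) j (Finset.mem_univ_val j) hij
  · conv_lhs => rw [hs.eq_prod_roots, ← hr, Multiset.map_map]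
    rfl

/-- the vector with given isotropic coordinates -/
noncomputable def vecOf (p : ℂ × ℂ) : V 1 := ![(p.1 + p.2) / 2, (p.1 - p.2) / (2 * Complex.I)]

theorem zz_vecOf (p : ℂ × ℂ) : zz (vecOf p) = p.1 := by
  have hI : Complex.I ≠ 0 := Complex.I_ne_zero
  show (p.1 + p.2) / 2 + Complex.I * ((p.1 - p.2) / (2 * Complex.I)) = p.1
  field_simp
  ring

theorem zb_vecOf (p : ℂ × ℂ) : zb (vecOf p) = p.2 := by
  have hI : Complex.I ≠ 0 := Complex.I_ne_zero
  show (p.1 + p.2) / 2 - Complex.I * ((p.1 - p.2) / (2 * Complex.I)) = p.2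
  field_simp
  ring

theorem vecOf_ne {p : ℂ × ℂ} (hp : ‖p‖ = 1) : vecOf p ≠ 0 := by
  intro h
  have h1 := zz_vecOf p
  have h2 := zb_vecOf p
  rw [h] at h1 h2
  have h3 : p = 0 := by
    ext1
    · rw [← h1]; simp [zz]
    · rw [← h2]; simp [zb]
  rw [h3, norm_zero] at hp
  exact zero_ne_one hp

theorem continuous_vecOf (a : Fin (1 + 1)) : Continuous fun p : ℂ × ℂ => vecOf p a := by
  fin_cases a
  · show Continuous fun p : ℂ × ℂ => (p.1 + p.2) / 2
    fun_prop
  · show Continuous fun p : ℂ × ℂ => (p.1 - p.2) / (2 * Complex.I)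
    fun_prop

theorem lin_vecOf (p : ℂ × ℂ) : lin (vecOf p) = Polynomial.C p.1 + Polynomial.C p.2 * Polynomial.X := by
  unfold lin
  rw [zz_vecOf, zb_vecOf]

/-- normalized isotropic coordinates of the root `r` -/
noncomputable def nrm (r : ℂ) : ℂ × ℂ := (-r * ((max 1 ‖r‖ : ℝ) : ℂ)⁻¹, ((max 1 ‖r‖ : ℝ) : ℂ)⁻¹)

theorem norm_nrm (r : ℂ) : ‖nrm r‖ = 1 := by
  have h0 : 0 < max 1 ‖r‖ := lt_of_lt_of_le one_pos (le_max_left _ _)
  have h1 : ‖(((max 1 ‖r‖ : ℝ) : ℂ)⁻¹)‖ = (max 1 ‖r‖)⁻¹ := by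
    rw [norm_inv, Complex.norm_real, Real.norm_of_nonneg h0.le]
  rw [Prod.norm_def]
  unfold nrm
  rw [norm_mul, norm_neg, h1]
  rcases le_total ‖r‖ 1 with h | h
  · rw [max_eq_left h]
    simpa using h
  · rw [max_eq_right h]
    have h2 : ‖r‖ ≠ 0 := by linarith
    rw [mul_inv_cancel₀ h2]
    exact max_eq_left (inv_le_one_of_one_le₀ h)

theorem nrm_ne (r : ℂ) : ((max 1 ‖r‖ : ℝ) : ℂ) ≠ 0 := by
  have h0 : 0 < max 1 ‖r‖ := lt_of_lt_of_le one_pos (le_max_left _ _)
  exact_mod_cast h0.ne'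

theorem lin_nrm (r : ℂ) : lin (vecOf (nrm r)) =
    Polynomial.C (((max 1 ‖r‖ : ℝ) : ℂ)⁻¹) * (Polynomial.X - Polynomial.C r) := by
  rw [lin_vecOf]
  unfold nrm
  rw [Polynomial.C_mul, Polynomial.C_neg]
  ring

theorem par_nrm {r s : ℂ} (h : Par (vecOf (nrm r)) (vecOf (nrm s))) : r = s := by
  unfold Par at h
  rw [zz_vecOf, zz_vecOf, zb_vecOf, zb_vecOf] at h
  unfold nrm at h
  have h1 := inv_ne_zero (nrm_ne r)
  have h2 := inv_ne_zero (nrm_ne s)
  have h3 : (((max 1 ‖r‖ : ℝ) : ℂ)⁻¹ * ((max 1 ‖s‖ : ℝ) : ℂ)⁻¹) * r =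
      (((max 1 ‖r‖ : ℝ) : ℂ)⁻¹ * ((max 1 ‖s‖ : ℝ) : ℂ)⁻¹) * s := by
    simp only at h
    linear_combination -h
  exact mul_left_cancel₀ (mul_ne_zero h1 h2) h3

theorem tendsto_coeff_prod {M : ℕ} (z : ℕ → Fin M → ℂ × ℂ) (z' : Fin M → ℂ × ℂ)
    (hz : ∀ j, Tendsto (fun n => z n j) atTop (𝓝 (z' j))) (s : Finset (Fin M)) (i : ℕ) :
    Tendsto (fun n => (∏ j ∈ s, lin (vecOf (z n j))).coeff i) atTop
      (𝓝 ((∏ j ∈ s, lin (vecOf (z' j))).coeff i)) := by
  induction s using Finset.induction_on generalizing i with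
  | empty => simp
  | insert a s ha ih =>
    simp only [Finset.prod_insert ha, Polynomial.coeff_mul]
    refine tendsto_finsetSum _ fun x _ => ?_
    refine Tendsto.mul ?_ (ih _)
    have h1 : ∀ p : ℂ × ℂ, (lin (vecOf p)).coeff x.1 =
        (if x.1 = 0 then p.1 else 0) + p.2 * (if x.1 = 1 then 1 else 0) := by
      intro p
      rw [lin_vecOf, Polynomial.coeff_add, Polynomial.coeff_C, Polynomial.coeff_C_mul,
        Polynomial.coeff_X]
      simp only [eq_comm]
    simp only [h1]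
    refine Tendsto.add ?_ (Tendsto.mul ?_ tendsto_const_nhds)
    · split_ifs
      · exact (continuous_fst.tendsto _).comp (hz a)
      · exact tendsto_const_nhds
    · exact (continuous_snd.tendsto _).comp (hz a)

/-- limits of proportional products -/
theorem limit_prod {M : ℕ} (z : ℕ → Fin M → ℂ × ℂ) (z' : Fin M → ℂ × ℂ)
    (hz : ∀ j, Tendsto (fun n => z n j) atTop (𝓝 (z' j))) (hne : ∀ j, vecOf (z' j) ≠ 0)
    (Q : ℕ → Polynomial ℂ) (P : Polynomial ℂ) (hP : P ≠ 0)
    (hQ : ∀ i, Tendsto (fun n => (Q n).coeff i) atTop (𝓝 (P.coeff i)))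
    (e : ℕ → ℂ) (he : ∀ n, Q n = Polynomial.C (e n) * ∏ j, lin (vecOf (z n j))) :
    ∃ s : ℂ, s ≠ 0 ∧ ∏ j, lin (vecOf (z' j)) = Polynomial.C s * P := by
  set L : Polynomial ℂ := ∏ j, lin (vecOf (z' j)) with hL
  have hL0 : L ≠ 0 := Finset.prod_ne_zero_iff.mpr fun j _ => lin_ne_zero (hne j)
  obtain ⟨i, hi⟩ : ∃ i, L.coeff i ≠ 0 := by
    by_contra h
    push Not at h
    exact hL0 (Polynomial.ext fun i => by rw [h i, Polynomial.coeff_zero])
  have hLt := fun i => tendsto_coeff_prod z z' hz Finset.univ i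
  have hev : ∀ᶠ n in atTop, (∏ j, lin (vecOf (z n j))).coeff i ≠ 0 := (hLt i).eventually_ne hi
  have hdiv : Tendsto (fun n => (Q n).coeff i / (∏ j, lin (vecOf (z n j))).coeff i) atTop
      (𝓝 (P.coeff i / L.coeff i)) := (hQ i).div (hLt i) hi
  have het : Tendsto e atTop (𝓝 (P.coeff i / L.coeff i)) := by
    refine hdiv.congr' ?_
    filter_upwards [hev] with n hn
    rw [he n, Polynomial.coeff_C_mul]
    field_simp
  have hPL : P = Polynomial.C (P.coeff i / L.coeff i) * L := by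
    ext l
    rw [Polynomial.coeff_C_mul]
    have h1 := het.mul (hLt l)
    refine tendsto_nhds_unique (hQ l) (h1.congr fun n => ?_)
    rw [he n, Polynomial.coeff_C_mul]
  have hs : P.coeff i / L.coeff i ≠ 0 := by
    intro h
    rw [h, Polynomial.C_0, zero_mul] at hPL
    exact hP hPL
  refine ⟨(P.coeff i / L.coeff i)⁻¹, inv_ne_zero hs, ?_⟩
  clear het hdiv
  generalize P.coeff i / L.coeff i = t at hPL hs
  rw [hPL, ← mul_assoc, ← Polynomial.C_mul, inv_mul_cancel₀ hs, Polynomial.C_1, one_mul]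

/-- the product of the normalised linear forms -/
theorem prod_lin_nrm {M : ℕ} (r : Fin M → ℂ) : ∃ S : ℂ, S ≠ 0 ∧
    ∏ j, lin (vecOf (nrm (r j))) = Polynomial.C S * ∏ j, (Polynomial.X - Polynomial.C (r j)) := by
  refine ⟨∏ j, ((max 1 ‖r j‖ : ℝ) : ℂ)⁻¹,
    Finset.prod_ne_zero_iff.mpr fun j _ => inv_ne_zero (nrm_ne _), ?_⟩
  rw [map_prod, ← Finset.prod_mul_distrib]
  exact Finset.prod_congr rfl fun j _ => lin_nrm _

/-- coordinates from isotropic coordinates -/
noncomputable def mkY (z : (Fin d × Fin (D 1 d)) → ℂ × ℂ) (hz : ∀ i, ‖z i‖ = 1) : Coord 1 d :=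
  ⟨fun s => vecOf (z s.1) s.2, fun i => vecOf_ne (hz i)⟩

theorem vk_mkY (z : (Fin d × Fin (D 1 d)) → ℂ × ℂ) (hz : ∀ i, ‖z i‖ = 1) (k : Fin d)
    (j : Fin (D 1 d)) : vk (mkY z hz).1 k j = vecOf (z (k, j)) := rfl

theorem isoPoly_mkY (z : (Fin d × Fin (D 1 d)) → ℂ × ℂ) (hz : ∀ i, ‖z i‖ = 1) (k : Fin d) :
    isoPoly (mkY z hz) k = ∏ j, lin (vecOf (z (k, j))) := rfl

theorem mkY_mem (hd : 3 ≤ d) (Q : Fin d → Polynomial ℂ) (u : Fin d → ℂ) (ρ σ : ℂ)
    (hu : ∀ k, u k ≠ 0) (hQd : ∀ k, (Q k).natDegree = d) (hQ0 : ∀ k, (Q k).coeff 0 = ρ * u k)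
    (hQσ : ∀ k, (Q k).coeff d = σ * u k)
    (hQm : Even d → ∑ k, (u k)⁻¹ * (Q k).coeff (d / 2) = 0)
    (r : Fin d → Fin (D 1 d) → ℂ) (hrinj : ∀ k, Function.Injective (r k))
    (hrQ : ∀ k, Q k = Polynomial.C (Q k).leadingCoeff *
      ∏ j, (Polynomial.X - Polynomial.C (r k j))) :
    toConf (mkY (fun i => nrm (r i.1 i.2)) fun i => norm_nrm _) ∈ eigenConfs 1 d := by
  have hM : D 1 d = d := D_one hd
  obtain ⟨T, hT⟩ := exists_tensor (by omega : 2 ≤ d)
    (fun k => Polynomial.C ((u k)⁻¹) * Q k) (by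
      intro k
      refine (Polynomial.natDegree_C_mul_le _ _).trans ?_
      exact (hQd k).le) (by
      intro k l
      rw [Polynomial.coeff_C_mul, Polynomial.coeff_C_mul, hQ0, hQ0]
      have := hu k
      have := hu l
      field_simp) (by
      intro k l
      rw [Polynomial.coeff_C_mul, Polynomial.coeff_C_mul, hQσ, hQσ]
      have := hu k
      have := hu l
      field_simp) (by
      intro m hm
      have hev : Even d := ⟨m, by omega⟩
      have h2 := hQm hev
      rw [show d / 2 = m by omega] at h2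
      simp only [Polynomial.coeff_C_mul]
      exact h2)
  refine ⟨T, fun k => ⟨?_, fun p => ?_⟩⟩
  · show (Finset.univ.val.map fun j => Projectivization.mk ℂ
      (vk (mkY (fun i : Fin d × Fin (D 1 d) => nrm (r i.1 i.2)) fun i => norm_nrm _).1 k j)
      (vk_ne _ k j)).Nodup
    refine Multiset.Nodup.map ?_ Finset.univ.nodup
    intro i j hij
    apply hrinj k
    apply par_nrm
    obtain ⟨a, ha⟩ := (Projectivization.mk_eq_mk_iff' _ _ _ _ _).mp hij
    have ha' : vecOf (nrm (r k i)) = a • vecOf (nrm (r k j)) := ha.symm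
    rw [ha']
    unfold Par
    rw [zz_smul, zb_smul]
    ring
  · have hom : (om T k).IsHomogeneous (D 1 d) := by
      rw [hM]; exact om_homog (by omega) T k
    have h3 : ((1 / (2 * Complex.I)) ^ (D 1 d) : ℂ) ≠ 0 := pow_ne _
    obtain ⟨S, hS0, hS⟩ := prod_lin_nrm (r k)
    have hlc : (Q k).leadingCoeff ≠ 0 := by
      rw [Polynomial.leadingCoeff_ne_zero]
      intro h0
      have := hQd k
      rw [h0, Polynomial.natDegree_zero] at this
      omega
    have hc0 : (u k)⁻¹ * (Q k).leadingCoeff * S⁻¹ * ((1 / (2 * Complex.I)) ^ (D 1 d))⁻¹ ≠ 0 :=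
      mul_ne_zero (mul_ne_zero (mul_ne_zero (inv_ne_zero (hu k)) hlc) (inv_ne_zero hS0))
        (inv_ne_zero h3)
    have h4 : om T k = C ((u k)⁻¹ * (Q k).leadingCoeff * S⁻¹ *
        ((1 / (2 * Complex.I)) ^ (D 1 d))⁻¹) * ∏ j, psi (vecOf (nrm (r k j))) := by
      apply ev_injective hom
      · have := (isHomogeneous_C (Fin (1 + 1)) ((u k)⁻¹ * (Q k).leadingCoeff *
          S⁻¹ * ((1 / (2 * Complex.I)) ^ (D 1 d))⁻¹)).mul
          (prod_psi_homog fun j => vecOf (nrm (r k j)))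
        rwa [zero_add] at this
      · rw [map_mul, ev_C, ev_prod_psi, hS, hT]
        generalize (1 / (2 * Complex.I)) ^ (D 1 d) = w at h3
        have h5 : Polynomial.C (u k)⁻¹ * Q k = Polynomial.C (u k)⁻¹ *
            (Polynomial.C (Q k).leadingCoeff * ∏ j, (Polynomial.X - Polynomial.C (r k j))) := by
          rw [← hrQ k]
        rw [h5]
        generalize (Q k).leadingCoeff = q
        generalize (∏ j, (Polynomial.X - Polynomial.C (r k j))) = R
        rw [← mul_assoc, ← mul_assoc, ← mul_assoc, ← Polynomial.C_mul, ← Polynomial.C_mul,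
          ← Polynomial.C_mul]
        congr 2
        have := hu k
        field_simp
    exact mem_iff_of_prod _ (vk_ne (mkY (fun i : Fin d × Fin (D 1 d) => nrm (r i.1 i.2))
      fun i => norm_nrm _) k) T k _ hc0 h4 p

/-- Zariski closed sets are closed under limits. -/
theorem closed_limit (S : Set (Conf 1 d)) (z : ℕ → (Fin d × Fin (D 1 d)) → ℂ × ℂ)
    (hz : ∀ n i, ‖z n i‖ = 1) (z' : (Fin d × Fin (D 1 d)) → ℂ × ℂ) (hz' : ∀ i, ‖z' i‖ = 1)
    (hlim : ∀ i, Tendsto (fun n => z n i) atTop (𝓝 (z' i)))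
    (h : ∀ n, toConf (mkY (z n) (hz n)) ∈ S) : toConf (mkY z' hz') ∈ closure S := by
  have hcl : IsClosed (toConf ⁻¹' (closure S)) :=
    isClosed_closure.preimage continuous_coinduced_rng
  obtain ⟨W, hW, hWe⟩ := isClosed_induced_iff.mp hcl
  obtain ⟨F, rfl⟩ := (aff_isClosed_iff W).mp hW
  have h4 : (mkY z' hz').1 ∈ zeros F := by
    intro f hf
    have h5 : Tendsto (fun n => eval (fun i => (mkY (z n) (hz n)).1 i) f) atTop
        (𝓝 (eval (fun i => (mkY z' hz').1 i) f)) := by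
      refine ((MvPolynomial.continuous_eval f).tendsto _).comp (tendsto_pi_nhds.mpr fun s => ?_)
      exact ((continuous_vecOf s.2).tendsto _).comp (hlim s.1)
    have h6 : ∀ n, eval (fun i => (mkY (z n) (hz n)).1 i) f = 0 := by
      intro n
      have h7 : mkY (z n) (hz n) ∈ toConf ⁻¹' (closure S) := subset_closure (h n)
      rw [← hWe] at h7
      exact h7 f hf
    refine tendsto_nhds_unique h5 ?_
    simp only [h6]
    exact tendsto_const_nhds
  have h8 : mkY z' hz' ∈ toConf ⁻¹' (closure S) := by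
    rw [← hWe]; exact h4
  exact h8

/-- Solutions of the equations are in the eigencompatibility variety. -/
theorem mem_of_eqs (hd : 3 ≤ d) {y : Coord 1 d} (h : Eqs (isoPoly y)) :
    toConf y ∈ eigencompatibilityVariety 1 d := by
  classical
  have hM : D 1 d = d := D_one hd
  have hdeg : ∀ k, (isoPoly y k).natDegree ≤ d := by
    intro k
    rw [isoPoly_eq]
    refine (Polynomial.natDegree_prod_le _ _).trans ?_
    refine (Finset.sum_le_sum fun j _ => natDegree_lin_le _).trans ?_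
    simp [hM]
  obtain ⟨Q, u, ρ, σ, hu, hQd, hQ0, hQσ, hQm, hQr, hQt⟩ := approx hd (isoPoly y) hdeg h.1 h.2
  choose r hrinj hrQ using fun n k => exists_roots ((hQd n k).trans hM.symm) (hQr n k)
  obtain ⟨z', hz', φ, hφ, hlim⟩ :=
    (isCompact_univ_pi fun _ : Fin d × Fin (D 1 d) =>
      isCompact_sphere (0 : ℂ × ℂ) 1).tendsto_subseq
      (x := fun n i => nrm (r n i.1 i.2)) (by
        intro n i _
        rw [mem_sphere_zero_iff_norm]
        exact norm_nrm _)
  have hlim' : ∀ i : Fin d × Fin (D 1 d), Tendsto (fun n => nrm (r (φ n) i.1 i.2)) atTop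
      (𝓝 (z' i)) := fun i => (tendsto_pi_nhds.mp hlim) i
  have hnz' : ∀ i, ‖z' i‖ = 1 := fun i => mem_sphere_zero_iff_norm.mp (hz' i (Set.mem_univ i))
  have h2 : toConf (mkY z' hnz') ∈ eigencompatibilityVariety 1 d :=
    closed_limit (eigenConfs 1 d) (fun n i => nrm (r (φ n) i.1 i.2)) (fun n i => norm_nrm _) z'
      hnz' hlim' (fun n => mkY_mem hd (Q (φ n)) (u (φ n)) (ρ (φ n)) (σ (φ n)) (hu _) (hQd _)
        (hQ0 _) (hQσ _) (fun hev => hQm hev _) (r (φ n)) (hrinj _) (hrQ _))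
  have h3 : toConf (mkY z' hnz') = toConf y := by
    apply toConf_eq_of_isoPoly
    intro k
    rw [isoPoly_mkY]
    have hP : isoPoly y k ≠ 0 := by
      rw [isoPoly_eq]
      exact Finset.prod_ne_zero_iff.mpr fun j _ => lin_ne_zero (vk_ne y k j)
    choose S hS0 hS using fun n => prod_lin_nrm (r (φ n) k)
    exact limit_prod (fun n j => nrm (r (φ n) k j)) (fun j => z' (k, j))
      (fun j => hlim' (k, j)) (fun j => vecOf_ne (hnz' (k, j))) (fun n => Q (φ n) k) (isoPoly y k) hP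
      (fun i => (hQt k i).comp hφ.tendsto_atTop)
      (fun n => (Q (φ n) k).leadingCoeff * (S n)⁻¹) (by
        intro n
        rw [hS n, ← mul_assoc, ← Polynomial.C_mul, mul_assoc, inv_mul_cancel₀ (hS0 n), mul_one]
        exact hrQ (φ n) k)
  rw [← h3]
  exact h2

/-- The equations of the eigencompatibility variety of binary tensors. -/
theorem main (hd : 3 ≤ d) :
    eigenConfs 1 d ⊆ schemeConfs d ∧ closure (schemeConfs d) = eigencompatibilityVariety 1 d ∧
    ∀ y : Coord 1 d, toConf y ∈ eigencompatibilityVariety 1 d ↔ Eqs (isoPoly y) := by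
  have h1 := eigenConfs_subset hd
  have h2 : closure (schemeConfs d) = eigencompatibilityVariety 1 d := by
    apply Set.Subset.antisymm
    · intro X hX
      obtain ⟨y, rfl⟩ := toConf_surjective X
      exact mem_of_eqs hd (closure_subset hd hX)
    · exact closure_mono h1
  refine ⟨h1, h2, fun y => ⟨fun h => ?_, mem_of_eqs hd⟩⟩
  rw [← h2] at h
  exact closure_subset hd h

end Pool.Agent.Helper54.EC1
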