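import Mathlib

/-! A perturbation lemma for compatible tuples. -/

set_option autoImplicit false

namespace Pool.Agent.Helper54.EC1

open Filter Topology

/-- Perturbation of compatible tuples. -/
theorem pert {d : ℕ} {N : Type*} [NormedAddCommGroup N] [NormedSpace ℂ N] (w : Fin d → ℂ)
    (ν : Fin d → N) (c : Fin d → ℂ) (hc : c ≠ 0) (hcw : ∀ k l, c k * w k = c l * w l)
    (hsum : ∑ k, c k • ν k = 0) :
    ∃ (u : ℕ → Fin d → ℂ) (μ : ℕ → Fin d → N), (∀ n k, u n k ≠ 0) ∧
      (∀ k, Tendsto (fun n => u n k) atTop (𝓝 (w k))) ∧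
      (∀ k, Tendsto (fun n => μ n k) atTop (𝓝 (ν k))) ∧
      ∀ n, ∑ k, (u n k)⁻¹ • μ n k = 0 := by
  classical
  obtain ⟨s, hs⟩ : ∃ s, c s ≠ 0 := by
    by_contra h
    push Not at h
    exact hc (funext h)
  by_cases hw : ∀ k, w k ≠ 0
  · refine ⟨fun _ => w, fun _ => ν, fun _ k => hw k, fun k => tendsto_const_nhds,
      fun k => tendsto_const_nhds, fun _ => ?_⟩
    have h1 : ∀ k, c k = (c s * w s) * (w k)⁻¹ := by
      intro k
      rw [hcw s k, mul_assoc, mul_inv_cancel₀ (hw k), mul_one]
    have h2 : (c s * w s) • ∑ k, (w k)⁻¹ • ν k = 0 := by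
      rw [Finset.smul_sum, ← hsum]
      refine Finset.sum_congr rfl fun k _ => ?_
      rw [smul_smul, ← h1 k]
    exact (smul_eq_zero.mp h2).resolve_left (mul_ne_zero hs (hw s))
  · push Not at hw
    obtain ⟨k0, hk0⟩ := hw
    have hz : ∀ k, c k * w k = 0 := fun k => by rw [hcw k k0, hk0, mul_zero]
    have hcz : ∀ k, w k ≠ 0 → c k = 0 := fun k hk => (mul_eq_zero.mp (hz k)).resolve_right hk
    have hws : w s = 0 := (mul_eq_zero.mp (hz s)).resolve_left hs
    set α : Fin d → ℂ := fun k => if w k = 0 ∧ c k = 0 then 1 else 0 with hα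
    set e : ℕ → ℂ := fun n => 1 / ((n : ℂ) + 1) with he
    have he0 : ∀ n, e n ≠ 0 := fun n => by
      rw [he]
      exact one_div_ne_zero (Nat.cast_add_one_ne_zero n)
    have het : Tendsto e atTop (𝓝 0) := tendsto_one_div_add_atTop_nhds_zero_nat
    set A : N := ∑ k, α k • ν k with hA
    set B : N := ∑ k, (w k)⁻¹ • ν k with hB
    set Cf : ℕ → Fin d → ℂ := fun n k => (e n)⁻¹ ^ 2 * c k + (e n)⁻¹ * α k + (w k)⁻¹ with hCf
    have hCf0 : ∀ n k, Cf n k ≠ 0 := by
      intro n k
      rw [hCf]
      simp only
      by_cases h1 : w k = 0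
      · by_cases h2 : c k = 0
        · have h3 : α k = 1 := by rw [hα]; simp [h1, h2]
          rw [h1, h2, h3]
          simpa using he0 n
        · have h3 : α k = 0 := by rw [hα]; simp [h2]
          rw [h1, h3]
          simpa using ⟨he0 n, h2⟩
      · have h3 : α k = 0 := by rw [hα]; simp [h1]
        rw [hcz k h1, h3]
        simpa using h1
    refine ⟨fun n k => (Cf n k)⁻¹, fun n k => if k = s then
      ν s - (c s)⁻¹ • (e n • A + e n ^ 2 • B) else ν k, fun n k => inv_ne_zero (hCf0 n k), ?_, ?_, ?_⟩
    · intro k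
      by_cases h1 : w k = 0
      · by_cases h2 : c k = 0
        · have h3 : α k = 1 := by rw [hα]; simp [h1, h2]
          have h4 : (fun n => (Cf n k)⁻¹) = e := by
            funext n
            rw [hCf]
            simp only
            rw [h1, h2, h3]
            simp
          rw [h4, h1]
          exact het
        · have h3 : α k = 0 := by rw [hα]; simp [h2]
          have h4 : (fun n => (Cf n k)⁻¹) = fun n => e n ^ 2 * (c k)⁻¹ := by
            funext n
            rw [hCf]
            simp only
            rw [h1, h3, inv_zero, mul_zero, add_zero, add_zero, mul_inv, ← inv_pow, inv_inv]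
          rw [h4, h1]
          have := (het.pow 2).mul_const (c k)⁻¹
          simpa using this
      · have h3 : α k = 0 := by rw [hα]; simp [h1]
        have h4 : (fun n => (Cf n k)⁻¹) = fun _ => w k := by
          funext n
          rw [hCf]
          simp only
          rw [hcz k h1, h3, mul_zero, mul_zero, zero_add, zero_add, inv_inv]
        rw [h4]
        exact tendsto_const_nhds
    · intro k
      by_cases hk : k = s
      · subst hk
        simp only [if_true]
        have h1 : Tendsto (fun n => e n • A + e n ^ 2 • B) atTop (𝓝 ((0 : ℂ) • A + (0 : ℂ) ^ 2 • B)) :=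
          (het.smul_const A).add ((het.pow 2).smul_const B)
        have h2 := (tendsto_const_nhds (x := ν k)).sub (h1.const_smul (c k)⁻¹)
        simpa using h2
      · simp only [hk, if_false]
        exact tendsto_const_nhds
    · intro n
      simp only [inv_inv]
      have h1 : ∑ k, Cf n k • (if k = s then ν s - (c s)⁻¹ • (e n • A + e n ^ 2 • B) else ν k) =
          ∑ k, Cf n k • ν k - Cf n s • ((c s)⁻¹ • (e n • A + e n ^ 2 • B)) := by
        rw [← Finset.add_sum_erase _ _ (Finset.mem_univ s),
          ← Finset.add_sum_erase _ (fun k => Cf n k • ν k) (Finset.mem_univ s), if_pos rfl, smul_sub]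
        have h2 : ∑ k ∈ Finset.univ.erase s, Cf n k • (if k = s then
            ν s - (c s)⁻¹ • (e n • A + e n ^ 2 • B) else ν k) =
            ∑ k ∈ Finset.univ.erase s, Cf n k • ν k := by
          refine Finset.sum_congr rfl fun k hk => ?_
          rw [if_neg (Finset.ne_of_mem_erase hk)]
        rw [h2]
        abel
      rw [h1]
      have h3 : ∑ k, Cf n k • ν k = (e n)⁻¹ • A + B := by
        rw [hCf]
        simp only [add_smul, Finset.sum_add_distrib, mul_smul]
        rw [← Finset.smul_sum, ← Finset.smul_sum, hsum, smul_zero, zero_add]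
      have h4 : Cf n s = (e n)⁻¹ ^ 2 * c s := by
        have h5 : α s = 0 := by rw [hα]; simp [hs]
        rw [hCf]
        simp only
        rw [hws, h5, mul_zero, inv_zero, add_zero, add_zero]
      rw [h3, h4, smul_smul, mul_assoc, mul_inv_cancel₀ hs, mul_one, smul_add, smul_smul, smul_smul]
      have h6 : (e n)⁻¹ ^ 2 * e n = (e n)⁻¹ := by
        have := he0 n
        field_simp
      have h7 : (e n)⁻¹ ^ 2 * e n ^ 2 = 1 := by
        have := he0 n
        field_simp
      rw [h6, h7, one_smul, sub_self]

end Pool.Agent.Helper54.EC1
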