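import Pool.Agent.Helper54.EC1.Forms

/-! Realization of tuples of binary forms by a tensor. -/

set_option autoImplicit false

namespace Pool.Agent.Helper54.EC1

open MvPolynomial Pool.Agent.Helper834.EC

variable {d : ℕ}

/-- coefficient vectors of the isotropic coordinates -/
noncomputable def zeta (s : Fin 2) : V 1 := if s = 0 then ![1, Complex.I] else ![1, -Complex.I]

noncomputable def Zs (s : Fin 2) : Bi := ∑ a, C (zeta s a) * X a

noncomputable def eps (s : Fin 2) : ℂ := if s = 0 then 1 else -1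

theorem Zs_zero : Zs 0 = Z := by
  unfold Zs Z zeta
  rw [Fin.sum_univ_two]
  simp

theorem Zs_one : Zs 1 = Zb := by
  unfold Zs Zb zeta
  rw [Fin.sum_univ_two]
  simp
  ring

/-- product tensors -/
noncomputable def tau (I : Fin d → Fin 2) : Tensor 1 d := fun i => ∏ m, zeta (I m) (i m)

theorem phiP_tau (I : Fin d → Fin 2) (k : Fin d) (j : Fin (1 + 1)) :
    phiP k j (tau I) = C (zeta (I k) j) * ∏ m ∈ Finset.univ.erase k, Zs (I m) := by
  classical
  let w : Fin d → Fin (1 + 1) → Bi := fun m a =>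
    if m = k then (if a = j then C (zeta (I k) a) else 0) else C (zeta (I m) a) * X a
  have h1 : phiP k j (tau I) = ∑ i : Fin d → Fin (1 + 1), ∏ m, w m (i m) := by
    rw [phiP_apply]
    unfold contractR
    refine Finset.sum_congr rfl fun i _ => ?_
    rw [← Finset.mul_prod_erase Finset.univ (fun m => w m (i m)) (Finset.mem_univ k)]
    have h2 : ∏ m ∈ Finset.univ.erase k, w m (i m) =
        ∏ m ∈ Finset.univ.erase k, (C (zeta (I m) (i m)) * X (i m)) := by
      refine Finset.prod_congr rfl fun m hm => ?_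
      show (if m = k then _ else _) = _
      rw [if_neg (Finset.ne_of_mem_erase hm)]
    rw [h2]
    have h3 : w k (i k) = if i k = j then C (zeta (I k) (i k)) else 0 := if_pos rfl
    rw [h3]
    split_ifs with h
    · unfold tau
      show C (∏ m, zeta (I m) (i m)) * ∏ m ∈ Finset.univ.erase k, X (i m) = _
      rw [← Finset.mul_prod_erase Finset.univ (fun m => zeta (I m) (i m)) (Finset.mem_univ k),
        C_mul, map_prod, Finset.prod_mul_distrib]
      ring
    · rw [zero_mul]
  rw [h1]
  have h4 := (Finset.prod_univ_sum (fun _ : Fin d => (Finset.univ : Finset (Fin (1 + 1)))) w).symm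
  rw [Fintype.piFinset_univ] at h4
  rw [h4, ← Finset.mul_prod_erase Finset.univ _ (Finset.mem_univ k)]
  congr 1
  · show ∑ a, (if k = k then (if a = j then C (zeta (I k) a) else 0) else _) = _
    simp
  · refine Finset.prod_congr rfl fun m hm => ?_
    unfold Zs
    refine Finset.sum_congr rfl fun a _ => ?_
    show (if m = k then _ else _) = _
    rw [if_neg (Finset.ne_of_mem_erase hm)]

theorem head (s : Fin 2) : (X 0 * C (zeta s 1) - X 1 * C (zeta s 0) : Bi) =
    C (eps s * Complex.I) * Zs s := by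
  have h : (C Complex.I * C Complex.I : Bi) = -1 := by
    rw [← C_mul, Complex.I_mul_I, C_neg, C_1]
  have hI := Complex.I_mul_I
  fin_cases s
  · show (X 0 * C (zeta 0 1) - X 1 * C (zeta 0 0) : Bi) = C (eps 0 * Complex.I) * Zs 0
    rw [Zs_zero]
    unfold Z eps zeta
    simp
    linear_combination (-X 1) * h
  · show (X 0 * C (zeta 1 1) - X 1 * C (zeta 1 0) : Bi) = C (eps 1 * Complex.I) * Zs 1
    rw [Zs_one]
    unfold Zb eps zeta
    simp
    linear_combination (-X 1) * h

theorem om_tau (I : Fin d → Fin 2) (k : Fin d) :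
    om (tau I) k = C (eps (I k) * Complex.I) * ∏ m, Zs (I m) := by
  unfold om
  rw [phiP_tau, phiP_tau, ← Finset.mul_prod_erase Finset.univ (fun m => Zs (I m))
    (Finset.mem_univ k), ← mul_assoc (C (eps (I k) * Complex.I)), ← head]
  ring

/-- number of factors `z` -/
def n0 (I : Fin d → Fin 2) : ℕ := (Finset.univ.filter fun m => I m = 0).card

theorem ev_om_tau (I : Fin d → Fin 2) : ∃ c : ℂ, c ≠ 0 ∧ ∀ k,
    ev (om (tau I) k) = Polynomial.C (c * eps (I k)) * Polynomial.X ^ n0 I := by
  refine ⟨Complex.I * (-1) ^ (Finset.univ.filter fun m => I m ≠ 0).card,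
    mul_ne_zero Complex.I_ne_zero (pow_ne_zero _ (by norm_num)), fun k => ?_⟩
  rw [om_tau, map_mul, ev_C, map_prod]
  have h1 : ∀ m, ev (Zs (I m)) = if I m = 0 then Polynomial.X else -1 := by
    intro m
    split_ifs with h
    · rw [h, Zs_zero, ev_Z]
    · have : I m = 1 := by omega
      rw [this, Zs_one, ev_Zb]
  simp only [h1]
  rw [Finset.prod_ite, Finset.prod_const, Finset.prod_const]
  unfold n0
  simp only [Polynomial.C_mul, Polynomial.C_pow, Polynomial.C_neg, Polynomial.C_1]
  ring

theorem exists_idx {k l : Fin d} (hkl : k ≠ l) {j : ℕ} (hj1 : 1 ≤ j) (hj2 : j < d) :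
    ∃ I : Fin d → Fin 2, I k = 0 ∧ I l = 1 ∧ n0 I = j := by
  classical
  have h1 : j - 1 ≤ ((Finset.univ.erase k).erase l).card := by
    rw [Finset.card_erase_of_mem (Finset.mem_erase.mpr ⟨hkl.symm, Finset.mem_univ l⟩),
      Finset.card_erase_of_mem (Finset.mem_univ k), Finset.card_univ, Fintype.card_fin]
    omega
  obtain ⟨S, hS, hcard⟩ := Finset.exists_subset_card_eq h1
  have hk : k ∉ S := fun h => by
    have := hS h
    simp at this
  have hl : l ∉ S := fun h => by
    have := hS h
    simp at this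
  refine ⟨fun m => if m ∈ insert k S then 0 else 1, ?_, ?_, ?_⟩
  · simp
  · have : l ∉ insert k S := by
      rw [Finset.mem_insert, not_or]
      exact ⟨hkl.symm, hl⟩
    simp only [this, if_false]
  · unfold n0
    have : (Finset.univ.filter fun m => (if m ∈ insert k S then (0 : Fin 2) else 1) = 0) =
        insert k S := by
      ext m
      rw [Finset.mem_filter]
      constructor
      · rintro ⟨_, h⟩
        by_contra hc
        rw [if_neg hc] at h
        exact absurd h (by decide)
      · intro h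
        exact ⟨Finset.mem_univ _, if_pos h⟩
    rw [this, Finset.card_insert_of_notMem hk, hcard]
    omega

/-- the linear map from tensors to tuples of forms -/
noncomputable def Om (d : ℕ) : Tensor 1 d →ₗ[ℂ] (Fin d → Polynomial ℂ) :=
  LinearMap.pi fun k => ev.toLinearMap.comp
    ((LinearMap.mulLeft ℂ (X 0)).comp (phiP k 1) - (LinearMap.mulLeft ℂ (X 1)).comp (phiP k 0))

theorem Om_apply (T : Tensor 1 d) (k : Fin d) : Om d T k = ev (om T k) := rfl

noncomputable def Lm (d j : ℕ) : (Fin d → ℂ) →ₗ[ℂ] (Fin d → Polynomial ℂ) :=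
  LinearMap.pi fun k => (Polynomial.monomial j).comp (LinearMap.proj k)

theorem Lm_apply (j : ℕ) (g : Fin d → ℂ) (k : Fin d) :
    Lm d j g k = Polynomial.monomial j (g k) := rfl

noncomputable def Rm (d j : ℕ) : Submodule ℂ (Fin d → ℂ) := (LinearMap.range (Om d)).comap (Lm d j)

theorem eps_mem (I : Fin d → Fin 2) : (fun k => eps (I k)) ∈ Rm d (n0 I) := by
  obtain ⟨c, hc, h⟩ := ev_om_tau I
  rw [Rm, Submodule.mem_comap]
  refine ⟨c⁻¹ • tau I, ?_⟩
  funext k
  rw [map_smul, Pi.smul_apply, Om_apply, h k, Lm_apply, Polynomial.C_mul_X_pow_eq_monomial,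
    Polynomial.smul_monomial, smul_eq_mul, inv_mul_cancel_left₀ hc]

theorem single_sub_mem {k l : Fin d} (hkl : k ≠ l) {j : ℕ} (hj1 : 1 ≤ j) (hj2 : j < d) :
    (Pi.single k 1 - Pi.single l 1 : Fin d → ℂ) ∈ Rm d j := by
  obtain ⟨I, hk, hl, rfl⟩ := exists_idx hkl hj1 hj2
  have h1 := eps_mem I
  have h2 := eps_mem (I ∘ Equiv.swap k l)
  have h3 : n0 (I ∘ Equiv.swap k l) = n0 I := by
    unfold n0
    apply Finset.card_bij (fun m _ => Equiv.swap k l m)
    · intro m hm
      rw [Finset.mem_filter] at hm ⊢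
      exact ⟨Finset.mem_univ _, hm.2⟩
    · intro a _ b _ h
      exact (Equiv.swap k l).injective h
    · intro b hb
      refine ⟨Equiv.swap k l b, ?_, Equiv.swap_apply_self _ _ _⟩
      rw [Finset.mem_filter] at hb ⊢
      refine ⟨Finset.mem_univ _, ?_⟩
      rw [Function.comp_apply, Equiv.swap_apply_self]
      exact hb.2
  rw [h3] at h2
  have h4 := (Rm d (n0 I)).smul_mem (1 / 2 : ℂ) ((Rm d (n0 I)).sub_mem h1 h2)
  convert h4 using 1
  funext m
  simp only [Pi.sub_apply, Pi.smul_apply, Function.comp_apply, smul_eq_mul]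
  by_cases hmk : m = k
  · subst hmk
    rw [Equiv.swap_apply_left, Pi.single_eq_same, Pi.single_eq_of_ne hkl, hk, hl]
    unfold eps
    norm_num
  · by_cases hml : m = l
    · subst hml
      rw [Equiv.swap_apply_right, Pi.single_eq_same, Pi.single_eq_of_ne hmk, hk, hl]
      unfold eps
      norm_num
    · rw [Equiv.swap_apply_of_ne_of_ne hmk hml, Pi.single_eq_of_ne hmk, Pi.single_eq_of_ne hml]
      ring

theorem mem_of_sum_zero (k0 : Fin d) {j : ℕ} (hj1 : 1 ≤ j) (hj2 : j < d) (g : Fin d → ℂ)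
    (hg : ∑ k, g k = 0) : g ∈ Rm d j := by
  have h : g = ∑ k, g k • (Pi.single k 1 - Pi.single k0 1 : Fin d → ℂ) := by
    have h1 : ∑ k, g k • (Pi.single k 1 - Pi.single k0 1 : Fin d → ℂ) =
        ∑ k, g k • (Pi.single k 1 : Fin d → ℂ) - (∑ k, g k) • Pi.single k0 1 := by
      rw [Finset.sum_smul, ← Finset.sum_sub_distrib]
      refine Finset.sum_congr rfl fun k _ => ?_
      rw [smul_sub]
    rw [h1, hg, zero_smul, sub_zero]
    funext m
    rw [Finset.sum_apply, Finset.sum_eq_single m]
    · simp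
    · intro b _ hb
      rw [Pi.smul_apply, Pi.single_eq_of_ne hb.symm, smul_zero]
    · intro h; exact absurd (Finset.mem_univ _) h
  rw [h]
  apply Submodule.sum_mem
  intro k _
  apply Submodule.smul_mem
  by_cases hk : k = k0
  · rw [hk, sub_self]
    exact Submodule.zero_mem _
  · exact single_sub_mem hk hj1 hj2

theorem sum_eps (I : Fin d → Fin 2) : ∑ k, eps (I k) = 2 * (n0 I : ℂ) - d := by
  have h1 : ∀ k, eps (I k) = 2 * (if I k = 0 then 1 else 0) - 1 := by
    intro k
    unfold eps
    split_ifs <;> norm_num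
  simp only [h1]
  rw [Finset.sum_sub_distrib, ← Finset.mul_sum, Finset.sum_boole]
  simp [n0]

theorem mem_of_ne (hd : 2 ≤ d) {j : ℕ} (hj1 : 1 ≤ j) (hj2 : j < d) (h2 : 2 * j ≠ d)
    (g : Fin d → ℂ) : g ∈ Rm d j := by
  have hkl : (⟨0, by omega⟩ : Fin d) ≠ ⟨1, by omega⟩ := by
    intro h
    have := congrArg Fin.val h
    simp at this
  obtain ⟨I, _, _, rfl⟩ := exists_idx hkl hj1 hj2
  have h1 := eps_mem I
  have hs := sum_eps I
  have hs0 : (∑ k, eps (I k)) ≠ 0 := by
    rw [hs]
    intro h
    apply h2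
    have : (2 * (n0 I : ℂ)) = d := by linear_combination h
    exact_mod_cast this
  have h3 : g - ((∑ k, g k) / ∑ k, eps (I k)) • (fun k => eps (I k)) ∈ Rm d (n0 I) := by
    apply mem_of_sum_zero ⟨0, by omega⟩ hj1 hj2
    simp only [Pi.sub_apply, Pi.smul_apply, smul_eq_mul]
    rw [Finset.sum_sub_distrib, ← Finset.mul_sum, div_mul_cancel₀ _ hs0, sub_self]
  have h4 := (Rm d (n0 I)).add_mem h3 ((Rm d (n0 I)).smul_mem ((∑ k, g k) / ∑ k, eps (I k)) h1)
  rwa [sub_add_cancel] at h4

theorem const_mem (s : Fin 2) (c : ℂ) :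
    (fun _ => c) ∈ Rm d (n0 (fun _ : Fin d => s)) := by
  have h1 := eps_mem (fun _ : Fin d => s)
  have h2 := (Rm d (n0 (fun _ : Fin d => s))).smul_mem (c * eps s) h1
  convert h2 using 1
  funext k
  simp only [Pi.smul_apply, smul_eq_mul]
  have : eps s * eps s = 1 := by
    unfold eps
    split_ifs <;> norm_num
  rw [mul_assoc, this, mul_one]

/-- realization of tuples of forms -/
theorem exists_tensor (hd : 2 ≤ d) (P : Fin d → Polynomial ℂ) (hdeg : ∀ k, (P k).natDegree ≤ d)
    (h0 : ∀ k l, (P k).coeff 0 = (P l).coeff 0) (hdd : ∀ k l, (P k).coeff d = (P l).coeff d)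
    (hmid : ∀ m, d = 2 * m → ∑ k, (P k).coeff m = 0) : ∃ T : Tensor 1 d, ∀ k, ev (om T k) = P k := by
  have key : P ∈ LinearMap.range (Om d) := by
    have h1 : P = ∑ j ∈ Finset.range (d + 1), Lm d j (fun k => (P k).coeff j) := by
      funext k
      rw [Finset.sum_apply]
      exact (P k).as_sum_range' (d + 1) (Nat.lt_succ_of_le (hdeg k))
    rw [h1]
    apply Submodule.sum_mem
    intro j hj
    have hj' : j ≤ d := Nat.lt_succ_iff.mp (Finset.mem_range.mp hj)
    have h2 : (fun k => (P k).coeff j) ∈ Rm d j → Lm d j (fun k => (P k).coeff j) ∈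
        LinearMap.range (Om d) := fun h => h
    apply h2
    let k0 : Fin d := ⟨0, by omega⟩
    rcases Nat.eq_zero_or_pos j with rfl | hjpos
    · have h3 := const_mem (d := d) 1 ((P k0).coeff 0)
      have h4 : n0 (fun _ : Fin d => (1 : Fin 2)) = 0 := by
        unfold n0
        simp
      rw [h4] at h3
      have h5 : (fun k => (P k).coeff 0) = fun _ => (P k0).coeff 0 := funext fun k => h0 k k0
      rwa [h5]
    · rcases lt_or_eq_of_le hj' with hlt | rfl
      · by_cases h2j : 2 * j = d
        · exact mem_of_sum_zero k0 hjpos hlt _ (hmid j h2j.symm)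
        · exact mem_of_ne hd hjpos hlt h2j _
      · have h3 := const_mem (d := j) 0 ((P k0).coeff j)
        have h4 : n0 (fun _ : Fin j => (0 : Fin 2)) = j := by
          unfold n0
          simp
        rw [h4] at h3
        have h5 : (fun k => (P k).coeff j) = fun _ => (P k0).coeff j := funext fun k => hdd k k0
        rwa [h5]
  obtain ⟨T, hT⟩ := key
  exact ⟨T, fun k => congrFun hT k⟩

end Pool.Agent.Helper54.EC1
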